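import Pool.Agent.Helper43_HT.Count

set_option autoImplicit false

/-! The brackets. -/

namespace Pool.Agent.Helper43_HT

open Finset LaurentPolynomial
open Pool.Agent.H891R2.HO
open Pool.Agent.H891R2.HO.O6 (Sup)

variable {k : ℕ}

/-- extension of a state -/
def ext (i₁ i₂ : Fin k) (t : Other i₁ i₂ → Bool) (i : Fin k) : Bool :=
  if h : i ≠ i₁ ∧ i ≠ i₂ then t ⟨i, h⟩ else true

theorem ext_coe (i₁ i₂ : Fin k) (t : Other i₁ i₂ → Bool) :
    (fun i : Other i₁ i₂ => ext i₁ i₂ t i) = t := by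
  funext i
  unfold ext
  rw [dif_pos i.2]

/-- the state with given values at `i₁`, `i₂` -/
def st (i₁ i₂ : Fin k) (t : Other i₁ i₂ → Bool) (x y : Bool) : Fin k → Bool :=
  Function.update (Function.update (ext i₁ i₂ t) i₁ x) i₂ y

theorem st_two (i₁ i₂ : Fin k) (t : Other i₁ i₂ → Bool) (x y : Bool) : st i₁ i₂ t x y i₂ = y := by
  unfold st; rw [Function.update_self]

theorem st_one (i₁ i₂ : Fin k) (hi : i₁ ≠ i₂) (t : Other i₁ i₂ → Bool) (x y : Bool) :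
    st i₁ i₂ t x y i₁ = x := by
  unfold st; rw [Function.update_of_ne hi, Function.update_self]

theorem st_other (i₁ i₂ : Fin k) (t : Other i₁ i₂ → Bool) (x y : Bool) (i : Other i₁ i₂) :
    st i₁ i₂ t x y i = t i := by
  unfold st
  rw [Function.update_of_ne i.2.2, Function.update_of_ne i.2.1]
  exact congrFun (ext_coe i₁ i₂ t) i

/-- states of all crossings -/
def stEquiv (i₁ i₂ : Fin k) (hi : i₁ ≠ i₂) :
    ((Other i₁ i₂ → Bool) × (Bool × Bool)) ≃ (Fin k → Bool) where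
  toFun p := st i₁ i₂ p.1 p.2.1 p.2.2
  invFun S := (fun i => S i, (S i₁, S i₂))
  left_inv p := by
    obtain ⟨t, x, y⟩ := p
    simp only [st_two, st_one i₁ i₂ hi]
    congr 1
    funext i
    exact st_other i₁ i₂ t x y i
  right_inv S := by
    funext i
    by_cases h2 : i = i₂
    · subst h2; exact st_two _ _ _ _ _
    · by_cases h1 : i = i₁
      · subst h1; exact st_one _ _ hi _ _ _
      · exact st_other i₁ i₂ (fun i => S i) (S i₁) (S i₂) ⟨i, h1, h2⟩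

theorem sum_st (i₁ i₂ : Fin k) (hi : i₁ ≠ i₂) (F : (Fin k → Bool) → ℤ[T;T⁻¹]) :
    ∑ S, F S = ∑ t : Other i₁ i₂ → Bool, (F (st i₁ i₂ t true true) + F (st i₁ i₂ t true false) +
      (F (st i₁ i₂ t false true) + F (st i₁ i₂ t false false))) := by
  rw [← (stEquiv i₁ i₂ hi).sum_comp F, Fintype.sum_prod_type]
  refine Finset.sum_congr rfl fun t _ => ?_
  rw [Fintype.sum_prod_type, Fintype.sum_bool, Fintype.sum_bool, Fintype.sum_bool]
  rfl

theorem sum_other (i₁ i₂ : Fin k) (hi : i₁ ≠ i₂) (g : Fin k → ℤ) :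
    ∑ i, g i = g i₁ + g i₂ + ∑ i : Other i₁ i₂, g i := by
  classical
  rw [← Finset.sum_filter_add_sum_filter_not univ (fun i => i ≠ i₁ ∧ i ≠ i₂) g]
  have h1 : ∑ i ∈ univ.filter (fun i => i ≠ i₁ ∧ i ≠ i₂), g i = ∑ i : Other i₁ i₂, g i :=
    Finset.sum_subtype _ (by simp) g
  have h2 : univ.filter (fun i : Fin k => ¬ (i ≠ i₁ ∧ i ≠ i₂)) = {i₁, i₂} := by
    ext i
    simp only [Finset.mem_filter, Finset.mem_univ, true_and, Finset.mem_insert, Finset.mem_singleton]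
    tauto
  rw [h1, h2, Finset.sum_pair hi]
  ring

/-- the weight of a state of the other crossings -/
def wt (w : Fin k → Bool) (i₁ i₂ : Fin k) (t : Other i₁ i₂ → Bool) : ℤ :=
  ∑ i, if t i = w i then 1 else -1

theorem wt_st (w : Fin k → Bool) (i₁ i₂ : Fin k) (hi : i₁ ≠ i₂) (t : Other i₁ i₂ → Bool) (x y : Bool) :
    (∑ i, if st i₁ i₂ t x y i = w i then (1 : ℤ) else -1) =
      (if x = w i₁ then 1 else -1) + (if y = w i₂ then 1 else -1) + wt w i₁ i₂ t := by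
  rw [sum_other i₁ i₂ hi, st_one i₁ i₂ hi, st_two]
  congr 1
  unfold wt
  exact Finset.sum_congr rfl fun i _ => by rw [st_other]

theorem wt_switch (w : Fin k → Bool) (i₁ i₂ : Fin k) (t : Other i₁ i₂ → Bool) :
    wt (switch (switch w i₁) i₂) i₁ i₂ t = wt w i₁ i₂ t := by
  unfold wt switch
  refine Finset.sum_congr rfl fun i _ => ?_
  rw [Function.update_of_ne i.2.2, Function.update_of_ne i.2.1]

theorem switch_one (w : Fin k → Bool) (i₁ i₂ : Fin k) (hi : i₁ ≠ i₂) :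
    switch (switch w i₁) i₂ i₁ = !(w i₁) := by
  unfold switch
  rw [Function.update_of_ne hi, Function.update_self]

theorem switch_two (w : Fin k → Bool) (i₁ i₂ : Fin k) (hi : i₁ ≠ i₂) :
    switch (switch w i₁) i₂ i₂ = !(w i₂) := by
  unfold switch
  rw [Function.update_self, Function.update_of_ne (Ne.symm hi)]

/-- the sum of the contributions of a state of the other crossings to the over- and the
under-closure -/
noncomputable def both (G : Shadow k) (i₁ i₂ : Fin k) (t : Other i₁ i₂ → Bool) : ℤ[T;T⁻¹] :=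
  (T 2 + T (-2)) * (dd ^ (G.loops (st i₁ i₂ t true true) - 1) +
      dd ^ (G.loops (st i₁ i₂ t false false) - 1)) +
    2 * (dd ^ (G.loops (st i₁ i₂ t true false) - 1) + dd ^ (G.loops (st i₁ i₂ t false true) - 1))

theorem bracket_sum (G : Shadow k) (w : Fin k → Bool) (i₁ i₂ : Fin k) (hi : i₁ ≠ i₂)
    (hw₁ : w i₁ = true) (hw₂ : w i₂ = true) :
    G.bracket w + G.bracket (switch (switch w i₁) i₂) =
      ∑ t : Other i₁ i₂ → Bool, T (wt w i₁ i₂ t) * both G i₁ i₂ t := by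
  unfold Shadow.bracket
  rw [sum_st i₁ i₂ hi, sum_st i₁ i₂ hi, ← Finset.sum_add_distrib]
  refine Finset.sum_congr rfl fun t _ => ?_
  rw [wt_st w i₁ i₂ hi, wt_st w i₁ i₂ hi, wt_st w i₁ i₂ hi, wt_st w i₁ i₂ hi,
    wt_st _ i₁ i₂ hi, wt_st _ i₁ i₂ hi, wt_st _ i₁ i₂ hi, wt_st _ i₁ i₂ hi, wt_switch,
    switch_one w i₁ i₂ hi, switch_two w i₁ i₂ hi, hw₁, hw₂]
  unfold both
  simp only [Bool.not_true, if_true, Bool.true_eq_false, Bool.false_eq_true, if_false]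
  have e1 : (1 : ℤ) + 1 + wt w i₁ i₂ t = 2 + wt w i₁ i₂ t := by ring
  have e2 : (1 : ℤ) + -1 + wt w i₁ i₂ t = wt w i₁ i₂ t := by ring
  have e3 : (-1 : ℤ) + 1 + wt w i₁ i₂ t = wt w i₁ i₂ t := by ring
  have e4 : (-1 : ℤ) + -1 + wt w i₁ i₂ t = -2 + wt w i₁ i₂ t := by ring
  rw [e1, e2, e3, e4, T_add, T_add]
  ring

theorem dd_two : (T 2 + T (-2) : ℤ[T;T⁻¹]) = -dd := by
  unfold dd; ring

theorem dd_six : (T 6 + T (-6) : ℤ[T;T⁻¹]) = 3 * dd - dd ^ 3 := by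
  have h : (T 2 + T (-2) : ℤ[T;T⁻¹]) ^ 3 = T 6 + T (-6) + 3 * (T 2 + T (-2)) := by
    have e1 : (T 2 : ℤ[T;T⁻¹]) ^ 3 = T 6 := by rw [T_pow]; norm_num
    have e2 : (T (-2) : ℤ[T;T⁻¹]) ^ 3 = T (-6) := by rw [T_pow]; norm_num
    have e3 : (T 2 : ℤ[T;T⁻¹]) * T (-2) = 1 := by rw [← T_add]; norm_num
    calc (T 2 + T (-2) : ℤ[T;T⁻¹]) ^ 3 = T 2 ^ 3 + T (-2) ^ 3 +
          3 * (T 2 * T (-2)) * (T 2 + T (-2)) := by ring
      _ = _ := by rw [e1, e2, e3]; ring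
  rw [dd_two] at h
  linear_combination -h

/-- a state of the first kind -/
def KA (G : Shadow k) (w : Fin k → Bool) (i₁ i₂ : Fin k) (E : ℤ) (t : Other i₁ i₂ → Bool) : Prop :=
  both G i₁ i₂ t = 2 * dd ^ (comps G i₁ i₂ t - 1) ∧
    dd ^ (circles G i₁ i₂ t - 1) = dd * dd ^ (comps G i₁ i₂ t - 1) ∧
    (4 : ℤ) ∣ wt w i₁ i₂ t + 2 * ((comps G i₁ i₂ t - 1 : ℕ) : ℤ) - E

/-- a state of the second kind -/
def KB (G : Shadow k) (w : Fin k → Bool) (i₁ i₂ : Fin k) (E : ℤ) (t : Other i₁ i₂ → Bool) : Prop :=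
  both G i₁ i₂ t = (T 6 + T (-6)) * dd ^ (comps G i₁ i₂ t - 1) ∧
    dd ^ (circles G i₁ i₂ t - 1) = dd ^ (comps G i₁ i₂ t - 1) ∧
    (4 : ℤ) ∣ wt w i₁ i₂ t + 2 * ((comps G i₁ i₂ t - 1 : ℕ) : ℤ) - (E + 2)

theorem kinds (G : Shadow k) (hG : G.Checkerboard) (w : Fin k → Bool) (i₁ i₂ : Fin k) (hi : i₁ ≠ i₂)
    (ha : G.arc (i₁, 1) = (i₂, 3)) (hP : NoTriple G i₁ i₂) (hw₁ : w i₁ = true) (hw₂ : w i₂ = true)
    (E : ℤ) (hE : ∀ S, (4 : ℤ) ∣ O6.e G w S - E) (t : Other i₁ i₂ → Bool) :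
    KA G w i₁ i₂ E t ∨ KB G w i₁ i₂ E t := by
  have hs := hE (st i₁ i₂ t true true)
  unfold O6.e at hs
  rw [wt_st w i₁ i₂ hi, hw₁, hw₂] at hs
  simp only [if_true] at hs
  obtain ⟨l, hl⟩ := count G hG i₁ i₂ hi ha hP (ext i₁ i₂ t)
  rw [ext_coe] at hl
  change (G.loops (st i₁ i₂ t true true) = l + 2 ∧ G.loops (st i₁ i₂ t true false) = l + 3 ∧
      G.loops (st i₁ i₂ t false true) = l + 1 ∧ G.loops (st i₁ i₂ t false false) = l + 2 ∧
      comps G i₁ i₂ t = l + 1 ∧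
      circles G i₁ i₂ t = l + 2) ∨
    (G.loops (st i₁ i₂ t true true) = l + 2 ∧ G.loops (st i₁ i₂ t true false) = l + 1 ∧
      G.loops (st i₁ i₂ t false true) = l + 3 ∧ G.loops (st i₁ i₂ t false false) = l + 2 ∧
      comps G i₁ i₂ t = l + 1 ∧
      circles G i₁ i₂ t = l + 2) ∨
    (G.loops (st i₁ i₂ t true true) = l + 1 ∧ G.loops (st i₁ i₂ t true false) = l + 2 ∧
      G.loops (st i₁ i₂ t false true) = l + 2 ∧ G.loops (st i₁ i₂ t false false) = l + 1 ∧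
      comps G i₁ i₂ t = l + 2 ∧
      circles G i₁ i₂ t = l + 3) ∨
    (G.loops (st i₁ i₂ t true true) = l + 1 ∧ G.loops (st i₁ i₂ t true false) = l + 2 ∧
      G.loops (st i₁ i₂ t false true) = l + 2 ∧ G.loops (st i₁ i₂ t false false) = l + 3 ∧
      comps G i₁ i₂ t = l + 1 ∧
      circles G i₁ i₂ t = l + 1) ∨
    (G.loops (st i₁ i₂ t true true) = l + 3 ∧ G.loops (st i₁ i₂ t true false) = l + 2 ∧
      G.loops (st i₁ i₂ t false true) = l + 2 ∧ G.loops (st i₁ i₂ t false false) = l + 1 ∧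
      comps G i₁ i₂ t = l + 1 ∧
      circles G i₁ i₂ t = l + 1) at hl
  have n1 : l + 1 - 1 = l := by omega
  have n2 : l + 2 - 1 = l + 1 := by omega
  have n3 : l + 3 - 1 = l + 2 := by omega
  unfold KA KB both
  rcases hl with ⟨a1, a2, a3, a4, a5, a6⟩ | ⟨a1, a2, a3, a4, a5, a6⟩ | ⟨a1, a2, a3, a4, a5, a6⟩ |
    ⟨a1, a2, a3, a4, a5, a6⟩ | ⟨a1, a2, a3, a4, a5, a6⟩
  · left
    rw [a1] at hs
    rw [a1, a2, a3, a4, a5, a6, n1, n2, n3, dd_two]
    refine ⟨by ring, by ring, ?_⟩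
    push_cast at hs
    omega
  · left
    rw [a1] at hs
    rw [a1, a2, a3, a4, a5, a6, n1, n2, n3, dd_two]
    refine ⟨by ring, by ring, ?_⟩
    push_cast at hs
    omega
  · left
    rw [a1] at hs
    rw [a1, a2, a3, a4, a5, a6, n1, n2, n3, dd_two]
    refine ⟨by ring, by ring, ?_⟩
    push_cast at hs ⊢
    omega
  · right
    rw [a1] at hs
    rw [a1, a2, a3, a4, a5, a6, n1, n2, n3, dd_two, dd_six]
    refine ⟨by ring, rfl, ?_⟩
    push_cast at hs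
    omega
  · right
    rw [a1] at hs
    rw [a1, a2, a3, a4, a5, a6, n1, n2, n3, dd_two, dd_six]
    refine ⟨by ring, rfl, ?_⟩
    push_cast at hs
    omega

theorem term_sup (a : ℤ) (n : ℕ) (E : ℤ) (h : (4 : ℤ) ∣ a + 2 * (n : ℤ) - E) :
    Sup E (T a * dd ^ n) := by
  have h1 := (Sup.dd_pow n).mul_T a
  rw [mul_comm (T a)]
  refine h1.congr ?_
  have e : 2 * (n : ℤ) + a - E = a + 2 * (n : ℤ) - E := by ring
  rw [e]; exact h

/-- the decomposition of the bracket of the knotoid -/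
theorem decomp (G : Shadow k) (hG : G.Checkerboard) (w : Fin k → Bool) (i₁ i₂ : Fin k) (hi : i₁ ≠ i₂)
    (ha : G.arc (i₁, 1) = (i₂, 3)) (hP : NoTriple G i₁ i₂) (hw₁ : w i₁ = true) (hw₂ : w i₂ = true)
    (E : ℤ) (hE : ∀ S, (4 : ℤ) ∣ O6.e G w S - E) :
    ∃ p q : ℤ[T;T⁻¹], bracketK G w i₁ i₂ = p + q ∧ Sup E p ∧ Sup (E + 2) q ∧
      G.bracket w + G.bracket (switch (switch w i₁) i₂) = 2 * p + (T 6 + T (-6)) * q ∧
      bracketS G w i₁ i₂ = dd * p + q := by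
  classical
  have hk := kinds G hG w i₁ i₂ hi ha hP hw₁ hw₂ E hE
  refine ⟨∑ t : Other i₁ i₂ → Bool, (if KA G w i₁ i₂ E t then
      T (wt w i₁ i₂ t) * dd ^ (comps G i₁ i₂ t - 1) else 0),
    ∑ t : Other i₁ i₂ → Bool, (if KA G w i₁ i₂ E t then 0 else
      T (wt w i₁ i₂ t) * dd ^ (comps G i₁ i₂ t - 1)), ?_, ?_, ?_, ?_, ?_⟩
  · unfold bracketK
    rw [← Finset.sum_add_distrib]
    refine Finset.sum_congr rfl fun t _ => ?_
    split_ifs
    · rw [add_zero]; rfl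
    · rw [zero_add]; rfl
  · refine Sup.sum _ _ fun t _ => ?_
    split_ifs with h
    · exact term_sup _ _ _ h.2.2
    · exact Sup.zero _
  · refine Sup.sum _ _ fun t _ => ?_
    split_ifs with h
    · exact Sup.zero _
    · rcases hk t with h' | h'
      · exact absurd h' h
      · exact term_sup _ _ _ h'.2.2
  · rw [bracket_sum G w i₁ i₂ hi hw₁ hw₂, Finset.mul_sum, Finset.mul_sum, ← Finset.sum_add_distrib]
    refine Finset.sum_congr rfl fun t _ => ?_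
    split_ifs with h
    · rw [h.1]; ring
    · rcases hk t with h' | h'
      · exact absurd h' h
      · rw [h'.1]; ring
  · unfold bracketS
    rw [Finset.mul_sum, ← Finset.sum_add_distrib]
    refine Finset.sum_congr rfl fun t _ => ?_
    change T (wt w i₁ i₂ t) * dd ^ (circles G i₁ i₂ t - 1) = _
    split_ifs with h
    · rw [h.2.1]; ring
    · rcases hk t with h' | h'
      · exact absurd h' h
      · rw [h'.2.1]; ring

end Pool.Agent.Helper43_HT
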