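import Pool.Agent.H891R2.HO.All

set_option autoImplicit false

/-! Counting classes after adding pairs of points from a small set. -/

namespace Pool.Agent.Helper43_HT

open Finset
open Pool.Agent.H891R2.MT.T2 (card_quot_congr card_add_same card_add_ne)

section merge

variable {X Y : Type} [Finite X]

/-- adding one pair -/
def addp (r : X → X → Prop) (u v : X) : X → X → Prop := fun x y => r x y ∨ (x = u ∧ y = v)

open Classical in
theorem mk_addp (r : X → X → Prop) (u v x y : X) :
    Quot.mk (addp r u v) x = Quot.mk (addp r u v) y ↔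
      (if Quot.mk r x = Quot.mk r v then Quot.mk r u else Quot.mk r x) =
        (if Quot.mk r y = Quot.mk r v then Quot.mk r u else Quot.mk r y) := by
  constructor
  · intro h
    have hF : ∀ a b, addp r u v a b →
        (if Quot.mk r a = Quot.mk r v then Quot.mk r u else Quot.mk r a) =
        (if Quot.mk r b = Quot.mk r v then Quot.mk r u else Quot.mk r b) := by
      rintro a b (hab | ⟨rfl, rfl⟩)
      · have : Quot.mk r a = Quot.mk r b := Quot.sound hab
        rw [this]
      · rw [if_pos rfl]
        split_ifs <;> rfl
    exact congrArg (Quot.lift (fun a => if Quot.mk r a = Quot.mk r v then Quot.mk r u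
      else Quot.mk r a) hF) h
  · intro h
    have hG : ∀ a b, r a b → Quot.mk (addp r u v) a = Quot.mk (addp r u v) b :=
      fun a b hab => Quot.sound (Or.inl hab)
    have key : ∀ a, Quot.mk (addp r u v) a = Quot.lift (fun b => Quot.mk (addp r u v) b) hG
        (if Quot.mk r a = Quot.mk r v then Quot.mk r u else Quot.mk r a) := by
      intro a
      split_ifs with ha
      · have h1 : Quot.mk (addp r u v) a = Quot.mk (addp r u v) v :=
          congrArg (Quot.lift (fun b => Quot.mk (addp r u v) b) hG) ha
        rw [h1]
        exact (Quot.sound (r := addp r u v) (Or.inr ⟨rfl, rfl⟩)).symm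
      · rfl
    rw [key x, key y, h]

/-- the new labels -/
def mrg (c : Y → ℕ) (p q : Y) : Y → ℕ := fun a => if c a = c q then c p else c a

/-- the number of classes lost -/
def cst (c : Y → ℕ) (p q : Y) : ℕ := if c p = c q then 0 else 1

/-- `c` labels the classes of the points `f y` -/
def Labels (r : X → X → Prop) (f : Y → X) (c : Y → ℕ) : Prop :=
  ∀ a b, Quot.mk r (f a) = Quot.mk r (f b) ↔ c a = c b

theorem step_labels (r : X → X → Prop) (f : Y → X) (c : Y → ℕ) (hc : Labels r f c) (p q : Y) :
    Labels (addp r (f p) (f q)) f (mrg c p q) := by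
  classical
  intro a b
  rw [mk_addp]
  unfold mrg
  by_cases ha : c a = c q <;> by_cases hb : c b = c q
  · rw [if_pos ((hc a q).2 ha), if_pos ((hc b q).2 hb), if_pos ha, if_pos hb]
    simp
  · rw [if_pos ((hc a q).2 ha), if_neg (fun h => hb ((hc b q).1 h)), if_pos ha, if_neg hb]
    exact hc p b
  · rw [if_neg (fun h => ha ((hc a q).1 h)), if_pos ((hc b q).2 hb), if_neg ha, if_pos hb]
    exact hc a p
  · rw [if_neg (fun h => ha ((hc a q).1 h)), if_neg (fun h => hb ((hc b q).1 h)), if_neg ha,
      if_neg hb]
    exact hc a b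

theorem step_card (r : X → X → Prop) (f : Y → X) (c : Y → ℕ) (hc : Labels r f c) (p q : Y) :
    Nat.card (Quot (addp r (f p) (f q))) + cst c p q = Nat.card (Quot r) := by
  unfold cst
  split_ifs with h
  · exact card_add_same r _ _ ((hc p q).2 h)
  · exact card_add_ne r _ _ (fun h' => h ((hc p q).1 h'))

/-- adding a list of pairs -/
def addl (r : X → X → Prop) (f : Y → X) : List (Y × Y) → X → X → Prop
  | [] => r
  | p :: l => addl (addp r (f p.1) (f p.2)) f l

/-- the number of classes lost -/
def total (c : Y → ℕ) : List (Y × Y) → ℕ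
  | [] => 0
  | p :: l => cst c p.1 p.2 + total (mrg c p.1 p.2) l

theorem card_addl (f : Y → X) (l : List (Y × Y)) : ∀ (r : X → X → Prop) (c : Y → ℕ),
    Labels r f c → Nat.card (Quot (addl r f l)) + total c l = Nat.card (Quot r) := by
  induction l with
  | nil => intro r c _; rfl
  | cons p l ih =>
    intro r c hc
    have h1 := ih _ _ (step_labels r f c hc p.1 p.2)
    have h2 := step_card r f c hc p.1 p.2
    show Nat.card (Quot (addl (addp r (f p.1) (f p.2)) f l)) +
      (cst c p.1 p.2 + total (mrg c p.1 p.2) l) = _
    omega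

omit [Finite X] in
theorem addl_iff (f : Y → X) (l : List (Y × Y)) : ∀ (r : X → X → Prop) (x y : X),
    addl r f l x y ↔ r x y ∨ ∃ p ∈ l, x = f p.1 ∧ y = f p.2 := by
  induction l with
  | nil => intro r x y; simp [addl]
  | cons p l ih =>
    intro r x y
    show addl (addp r (f p.1) (f p.2)) f l x y ↔ _
    rw [ih]
    unfold addp
    simp only [List.mem_cons, exists_eq_or_imp]
    tauto

end merge

end Pool.Agent.Helper43_HT
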