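import Pool.Agent.Helper43_HT.Path
import Pool.Agent.Helper43_HT.Merge

set_option autoImplicit false

/-! The six ways in which the ends are joined. -/

namespace Pool.Agent.Helper43_HT

open Finset
open Pool.Agent.H891R2.HO

variable {k : ℕ}

/-- the eight corners at `i₁` and `i₂` -/
def cor (i₁ i₂ : Fin k) (y : Bool × Fin 4) : Fin k × Fin 4 := (if y.1 = true then i₂ else i₁, y.2)

/-- labels of the classes of the eight corners -/
def lab (lT lA lB : ℕ) (y : Bool × Fin 4) : ℕ :=
  if y.1 = true then ![lB, 2, lA, 3] y.2 else ![1, 3, 0, lT] y.2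

/-- the four ends of colour `false` -/
def ent (i₁ i₂ : Fin k) (n : ℕ) : Fin k × Fin 4 :=
  if n = 0 then (i₁, 2) else if n = 1 then (i₁, 0) else if n = 2 then (i₂, 1) else (i₂, 3)

theorem labels_of (G : Shadow k) (i₁ i₂ : Fin k) (hi : i₁ ≠ i₂) (s : Fin k → Bool)
    (ha : G.arc (i₁, 1) = (i₂, 3)) (χ : Fin k × Fin 4 → Bool)
    (hχ : ∀ n, χ (ent i₁ i₂ n) = false)
    (u : ∀ n, n < 4 → ∀ c, Quot.mk (Opened G i₁ i₂ (fun i => s i)) (ent i₁ i₂ n) =
      Quot.mk (Opened G i₁ i₂ (fun i => s i)) c → At i₁ i₂ c → c = ent i₁ i₂ n ∨ χ c = true)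
    (lT lA lB : ℕ) (lt1 : lT < 4) (lt2 : lA < 4) (lt3 : lB < 4)
    (hT : Quot.mk (Opened G i₁ i₂ (fun i => s i)) (i₁, 3) =
      Quot.mk (Opened G i₁ i₂ (fun i => s i)) (ent i₁ i₂ lT))
    (hA : Quot.mk (Opened G i₁ i₂ (fun i => s i)) (i₂, 2) =
      Quot.mk (Opened G i₁ i₂ (fun i => s i)) (ent i₁ i₂ lA))
    (hB : Quot.mk (Opened G i₁ i₂ (fun i => s i)) (i₂, 0) =
      Quot.mk (Opened G i₁ i₂ (fun i => s i)) (ent i₁ i₂ lB)) :
    Labels (Opened G i₁ i₂ (fun i => s i)) (cor i₁ i₂) (lab lT lA lB) := by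
  have hat : ∀ n, At i₁ i₂ (ent i₁ i₂ n) := by
    intro n
    unfold ent At
    split_ifs <;> simp
  have einj : ∀ m n, m < 4 → n < 4 → ent i₁ i₂ m = ent i₁ i₂ n → m = n := by
    intro m n hm hn h
    unfold ent at h
    interval_cases m <;> interval_cases n <;>
      simp_all [Prod.ext_iff, Ne.symm hi]
  have inj : ∀ m n, m < 4 → n < 4 → Quot.mk (Opened G i₁ i₂ (fun i => s i)) (ent i₁ i₂ m) =
      Quot.mk (Opened G i₁ i₂ (fun i => s i)) (ent i₁ i₂ n) → m = n := by
    intro m n hm hn h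
    rcases u m hm _ h (hat n) with h' | h'
    · exact (einj n m hn hm h').symm
    · rw [hχ] at h'
      exact absurd h' Bool.false_ne_true
  have hlt : ∀ y, lab lT lA lB y < 4 := by
    rintro ⟨b, j⟩
    cases b <;> fin_cases j <;> simp [lab, lt1, lt2, lt3]
  have hE : ∀ y, Quot.mk (Opened G i₁ i₂ (fun i => s i)) (cor i₁ i₂ y) =
      Quot.mk (Opened G i₁ i₂ (fun i => s i)) (ent i₁ i₂ (lab lT lA lB y)) := by
    rintro ⟨b, j⟩
    have hm : Quot.mk (Opened G i₁ i₂ (fun i => s i)) (i₁, 1) =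
        Quot.mk (Opened G i₁ i₂ (fun i => s i)) (i₂, 3) := Quot.sound (Or.inl ha.symm)
    cases b <;> fin_cases j
    · rfl
    · exact hm
    · rfl
    · exact hT
    · exact hB
    · rfl
    · exact hA
    · rfl
  intro a b
  rw [hE a, hE b]
  constructor
  · exact inj _ _ (hlt a) (hlt b)
  · intro h; rw [h]

theorem labels_cases (G : Shadow k) (hG : G.Checkerboard) (i₁ i₂ : Fin k) (hi : i₁ ≠ i₂)
    (ha : G.arc (i₁, 1) = (i₂, 3)) (s : Fin k → Bool) :
    ∃ lT lA lB, ((lT, lA, lB) = (0, 2, 1) ∨ (lT, lA, lB) = (1, 0, 2) ∨ (lT, lA, lB) = (2, 0, 1) ∨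
      (lT, lA, lB) = (1, 2, 0) ∨ (lT, lA, lB) = (0, 1, 2) ∨ (lT, lA, lB) = (2, 1, 0)) ∧
      Labels (Opened G i₁ i₂ (fun i => s i)) (cor i₁ i₂) (lab lT lA lB) := by
  obtain ⟨χ, h1, h2, h3⟩ : ∃ χ : Fin k × Fin 4 → Bool, (∀ c, χ (G.arc c) = !(χ c)) ∧
      (∀ i j, χ (i, j + 1) = !(χ (i, j))) ∧ χ (i₁, 3) = true := by
    obtain ⟨χ, h1, h2⟩ := hG
    by_cases h : χ (i₁, 3) = true
    · exact ⟨χ, h1, h2, h⟩
    · refine ⟨fun c => !(χ c), fun c => by simp [h1], fun i j => by simp [h2], by simpa using h⟩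
  have c10 : χ (i₁, 0) = false := by
    have := h2 i₁ 3
    rw [h3] at this
    exact this
  have c11 : χ (i₁, 1) = true := by
    have := h2 i₁ 0
    rw [c10] at this
    exact this
  have c12 : χ (i₁, 2) = false := by
    have := h2 i₁ 1
    rw [c11] at this
    exact this
  have c23 : χ (i₂, 3) = false := by
    rw [← ha, h1, c11]; rfl
  have c20 : χ (i₂, 0) = true := by
    have := h2 i₂ 3
    rw [c23] at this
    exact this
  have c21 : χ (i₂, 1) = false := by
    have := h2 i₂ 0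
    rw [c20] at this
    exact this
  have c22 : χ (i₂, 2) = true := by
    have := h2 i₂ 1
    rw [c21] at this
    exact this
  have hχ : ∀ n, χ (ent i₁ i₂ n) = false := by
    intro n
    unfold ent
    split_ifs <;> assumption
  have at1 : ∀ j, At i₁ i₂ (i₁, j) := fun j => Or.inl rfl
  have at2 : ∀ j, At i₁ i₂ (i₂, j) := fun j => Or.inr rfl
  have exits : ∀ x, χ x = true → At i₁ i₂ x →
      x = (i₁, 3) ∨ x = (i₁, 1) ∨ x = (i₂, 0) ∨ x = (i₂, 2) := by
    rintro ⟨i, j⟩ hx hat
    have hat' : i = i₁ ∨ i = i₂ := hat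
    rcases hat' with rfl | rfl
    · fin_cases j
      · exact absurd hx (by simp [c10])
      · exact Or.inr (Or.inl rfl)
      · exact absurd hx (by simp [c12])
      · exact Or.inl rfl
    · fin_cases j
      · exact Or.inr (Or.inr (Or.inl rfl))
      · exact absurd hx (by simp [c21])
      · exact Or.inr (Or.inr (Or.inr rfl))
      · exact absurd hx (by simp [c23])
  obtain ⟨x0, hx0, ax0, mx0, ux0⟩ := path G i₁ i₂ s χ h1 h2 (i₁, 2) c12 (at1 _)
  obtain ⟨x1, hx1, ax1, mx1, ux1⟩ := path G i₁ i₂ s χ h1 h2 (i₁, 0) c10 (at1 _)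
  obtain ⟨x2, hx2, ax2, mx2, ux2⟩ := path G i₁ i₂ s χ h1 h2 (i₂, 1) c21 (at2 _)
  obtain ⟨x3, hx3, ax3, mx3, ux3⟩ := path G i₁ i₂ s χ h1 h2 (i₂, 3) c23 (at2 _)
  have hm : Quot.mk (Opened G i₁ i₂ (fun i => s i)) (i₁, 1) =
      Quot.mk (Opened G i₁ i₂ (fun i => s i)) (i₂, 3) := Quot.sound (Or.inl ha.symm)
  have hi' : i₂ ≠ i₁ := Ne.symm hi
  have n0 : x0 ≠ (i₁, 1) := by
    intro h
    rw [h] at mx0 hx0
    rcases ux0 (i₂, 3) (mx0.trans hm) (at2 _) with h' | h'
    · exact hi' (congrArg Prod.fst h')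
    · rw [h] at h'; exact hi' (congrArg Prod.fst h')
  have n1 : x1 ≠ (i₁, 1) := by
    intro h
    rw [h] at mx1 hx1
    rcases ux1 (i₂, 3) (mx1.trans hm) (at2 _) with h' | h'
    · exact hi' (congrArg Prod.fst h')
    · rw [h] at h'; exact hi' (congrArg Prod.fst h')
  have n2 : x2 ≠ (i₁, 1) := by
    intro h
    rw [h] at mx2 hx2
    rcases ux2 (i₂, 3) (mx2.trans hm) (at2 _) with h' | h'
    · exact absurd (show (3 : Fin 4) = 1 from congrArg Prod.snd h') (by decide)
    · rw [h] at h'; exact hi' (congrArg Prod.fst h')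
  have d01 : x0 ≠ x1 := by
    intro h
    rw [h] at mx0
    rcases ux0 (i₁, 0) (mx0.trans mx1.symm) (at1 _) with h' | h'
    · exact absurd (show (0 : Fin 4) = 2 from congrArg Prod.snd h') (by decide)
    · rw [← h', c10] at hx0; exact Bool.false_ne_true hx0
  have d02 : x0 ≠ x2 := by
    intro h
    rw [h] at mx0
    rcases ux0 (i₂, 1) (mx0.trans mx2.symm) (at2 _) with h' | h'
    · exact hi' (congrArg Prod.fst h')
    · rw [← h', c21] at hx0; exact Bool.false_ne_true hx0
  have d12 : x1 ≠ x2 := by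
    intro h
    rw [h] at mx1
    rcases ux1 (i₂, 1) (mx1.trans mx2.symm) (at2 _) with h' | h'
    · exact hi' (congrArg Prod.fst h')
    · rw [← h', c21] at hx1; exact Bool.false_ne_true hx1
  have u : ∀ n, n < 4 → ∀ c, Quot.mk (Opened G i₁ i₂ (fun i => s i)) (ent i₁ i₂ n) =
      Quot.mk (Opened G i₁ i₂ (fun i => s i)) c → At i₁ i₂ c → c = ent i₁ i₂ n ∨ χ c = true := by
    intro n hn c hc hat
    interval_cases n
    · rcases ux0 c hc hat with h | h
      · exact Or.inl h
      · right; rw [h]; exact hx0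
    · rcases ux1 c hc hat with h | h
      · exact Or.inl h
      · right; rw [h]; exact hx1
    · rcases ux2 c hc hat with h | h
      · exact Or.inl h
      · right; rw [h]; exact hx2
    · rcases ux3 c hc hat with h | h
      · exact Or.inl h
      · right; rw [h]; exact hx3
  have main := labels_of G i₁ i₂ hi s ha χ hχ u
  have f0 := exits x0 hx0 ax0
  have f1 := exits x1 hx1 ax1
  have f2 := exits x2 hx2 ax2
  rcases f0 with h0 | h0 | h0 | h0
  · -- x0 = T
    rcases f1 with h4 | h4 | h4 | h4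
    · exact absurd (h0.trans h4.symm) d01
    · exact absurd h4 n1
    · -- x1 = B
      rcases f2 with h5 | h5 | h5 | h5
      · exact absurd (h0.trans h5.symm) d02
      · exact absurd h5 n2
      · exact absurd (h4.trans h5.symm) d12
      · refine ⟨0, 2, 1, Or.inl rfl, main 0 2 1 (by norm_num) (by norm_num) (by norm_num) ?_ ?_ ?_⟩
        · rw [← h0]; exact mx0.symm
        · rw [← h5]; exact mx2.symm
        · rw [← h4]; exact mx1.symm
    · -- x1 = A
      rcases f2 with h5 | h5 | h5 | h5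
      · exact absurd (h0.trans h5.symm) d02
      · exact absurd h5 n2
      · refine ⟨0, 1, 2, by simp, main 0 1 2 (by norm_num) (by norm_num) (by norm_num) ?_ ?_ ?_⟩
        · rw [← h0]; exact mx0.symm
        · rw [← h4]; exact mx1.symm
        · rw [← h5]; exact mx2.symm
      · exact absurd (h4.trans h5.symm) d12
  · exact absurd h0 n0
  · -- x0 = B
    rcases f1 with h4 | h4 | h4 | h4
    · rcases f2 with h5 | h5 | h5 | h5
      · exact absurd (h4.trans h5.symm) d12
      · exact absurd h5 n2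
      · exact absurd (h0.trans h5.symm) d02
      · refine ⟨1, 2, 0, by simp, main 1 2 0 (by norm_num) (by norm_num) (by norm_num) ?_ ?_ ?_⟩
        · rw [← h4]; exact mx1.symm
        · rw [← h5]; exact mx2.symm
        · rw [← h0]; exact mx0.symm
    · exact absurd h4 n1
    · exact absurd (h0.trans h4.symm) d01
    · rcases f2 with h5 | h5 | h5 | h5
      · refine ⟨2, 1, 0, by simp, main 2 1 0 (by norm_num) (by norm_num) (by norm_num) ?_ ?_ ?_⟩
        · rw [← h5]; exact mx2.symm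
        · rw [← h4]; exact mx1.symm
        · rw [← h0]; exact mx0.symm
      · exact absurd h5 n2
      · exact absurd (h0.trans h5.symm) d02
      · exact absurd (h4.trans h5.symm) d12
  · -- x0 = A
    rcases f1 with h4 | h4 | h4 | h4
    · rcases f2 with h5 | h5 | h5 | h5
      · exact absurd (h4.trans h5.symm) d12
      · exact absurd h5 n2
      · refine ⟨1, 0, 2, by simp, main 1 0 2 (by norm_num) (by norm_num) (by norm_num) ?_ ?_ ?_⟩
        · rw [← h4]; exact mx1.symm
        · rw [← h0]; exact mx0.symm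
        · rw [← h5]; exact mx2.symm
      · exact absurd (h0.trans h5.symm) d02
    · exact absurd h4 n1
    · rcases f2 with h5 | h5 | h5 | h5
      · refine ⟨2, 0, 1, by simp, main 2 0 1 (by norm_num) (by norm_num) (by norm_num) ?_ ?_ ?_⟩
        · rw [← h5]; exact mx2.symm
        · rw [← h0]; exact mx0.symm
        · rw [← h4]; exact mx1.symm
      · exact absurd h5 n2
      · exact absurd (h4.trans h5.symm) d12
      · exact absurd (h0.trans h5.symm) d02
    · exact absurd (h0.trans h4.symm) d01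

end Pool.Agent.Helper43_HT
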