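import Pool.Agent.Helper43_HT.Cases

set_option autoImplicit false

/-! The numbers of components of the states. -/

namespace Pool.Agent.Helper43_HT

open Finset
open Pool.Agent.H891R2.HO
open Pool.Agent.H891R2.MT.T2 (card_quot_congr)

variable {k : ℕ}

/-- the pairs of corners joined in the smoothings `x` of `i₁` and `y` of `i₂` -/
def lst (x y : Bool) : List ((Bool × Fin 4) × (Bool × Fin 4)) :=
  (if x = true then [((false, 0), (false, 1)), ((false, 2), (false, 3))]
    else [((false, 1), (false, 2)), ((false, 3), (false, 0))]) ++
  (if y = true then [((true, 0), (true, 1)), ((true, 2), (true, 3))]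
    else [((true, 1), (true, 2)), ((true, 3), (true, 0))])

/-- the pairs of corners joined in the knotoid diagram -/
def lstK : List ((Bool × Fin 4) × (Bool × Fin 4)) := [((false, 0), (false, 2)), ((true, 0), (true, 2))]

/-- the pairs of corners joined in the saddle link -/
def lstS : List ((Bool × Fin 4) × (Bool × Fin 4)) :=
  [((false, 3), (true, 1)), ((false, 2), (true, 2)), ((false, 0), (true, 0))]

theorem loops_addl (G : Shadow k) (i₁ i₂ : Fin k) (hi : i₁ ≠ i₂) (s : Fin k → Bool) (x y : Bool) :
    G.loops (Function.update (Function.update s i₁ x) i₂ y) =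
      Nat.card (Quot (addl (Opened G i₁ i₂ (fun i => s i)) (cor i₁ i₂) (lst x y))) := by
  have e2 : Function.update (Function.update s i₁ x) i₂ y i₂ = y := by
    rw [Function.update_self]
  have e1 : Function.update (Function.update s i₁ x) i₂ y i₁ = x := by
    rw [Function.update_of_ne hi, Function.update_self]
  have e0 : ∀ i, i ≠ i₁ → i ≠ i₂ → Function.update (Function.update s i₁ x) i₂ y i = s i := by
    intro i h1 h2
    rw [Function.update_of_ne h2, Function.update_of_ne h1]
  unfold Shadow.loops
  set R := addl (Opened G i₁ i₂ (fun i => s i)) (cor i₁ i₂) (lst x y) with hR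
  have hl : ∀ p ∈ lst x y, Quot.mk R (cor i₁ i₂ p.1) = Quot.mk R (cor i₁ i₂ p.2) := by
    intro p hp
    exact Quot.sound ((addl_iff _ _ _ _ _).2 (Or.inr ⟨p, hp, rfl, rfl⟩))
  apply card_quot_congr
  · rintro c c' (h | h)
    · exact Quot.sound ((addl_iff _ _ _ _ _).2 (Or.inl (Or.inl h)))
    · obtain ⟨i, j⟩ := c
      by_cases h2 : i = i₂
      · subst h2
        rw [h]
        show Quot.mk R (i, j) = Quot.mk R (i, pair (Function.update (Function.update s i₁ x) i y i) j)
        rw [e2]
        have a := hl
        unfold lst at a
        cases y
        · have b1 : Quot.mk R (i, 1) = Quot.mk R (i, 2) := a ((true, 1), (true, 2)) (by simp)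
          have b2 : Quot.mk R (i, 3) = Quot.mk R (i, 0) := a ((true, 3), (true, 0)) (by simp)
          fin_cases j
          · exact b2.symm
          · exact b1
          · exact b1.symm
          · exact b2
        · have b1 : Quot.mk R (i, 0) = Quot.mk R (i, 1) := a ((true, 0), (true, 1)) (by simp)
          have b2 : Quot.mk R (i, 2) = Quot.mk R (i, 3) := a ((true, 2), (true, 3)) (by simp)
          fin_cases j
          · exact b1
          · exact b1.symm
          · exact b2
          · exact b2.symm
      · by_cases h1 : i = i₁
        · subst h1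
          rw [h]
          show Quot.mk R (i, j) = Quot.mk R (i, pair (Function.update (Function.update s i x) i₂ y i) j)
          rw [e1]
          have a := hl
          unfold lst at a
          cases x
          · have b1 : Quot.mk R (i, 1) = Quot.mk R (i, 2) := a ((false, 1), (false, 2)) (by simp)
            have b2 : Quot.mk R (i, 3) = Quot.mk R (i, 0) := a ((false, 3), (false, 0)) (by simp)
            fin_cases j
            · exact b2.symm
            · exact b1
            · exact b1.symm
            · exact b2
          · have b1 : Quot.mk R (i, 0) = Quot.mk R (i, 1) := a ((false, 0), (false, 1)) (by simp)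
            have b2 : Quot.mk R (i, 2) = Quot.mk R (i, 3) := a ((false, 2), (false, 3)) (by simp)
            fin_cases j
            · exact b1
            · exact b1.symm
            · exact b2
            · exact b2.symm
        · refine Quot.sound ((addl_iff _ _ _ _ _).2 (Or.inl ?_))
          rw [opened_iff]
          refine Or.inr ⟨⟨h1, h2⟩, ?_⟩
          rw [h]
          show (i, pair (Function.update (Function.update s i₁ x) i₂ y i) j) = (i, pair (s i) j)
          rw [e0 i h1 h2]
  · intro c c' h
    rw [hR, addl_iff] at h
    rcases h with h | ⟨p, hp, rfl, rfl⟩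
    · rw [opened_iff] at h
      rcases h with h | ⟨h, h'⟩
      · exact Quot.sound (Or.inl h)
      · refine Quot.sound (Or.inr ?_)
        rw [h', e0 c.1 h.1 h.2]
    · refine Quot.sound (Or.inr ?_)
      unfold lst at hp
      rw [List.mem_append] at hp
      rcases hp with hp | hp
      · have hc : (cor i₁ i₂ p.1).1 = i₁ := by
          cases x <;> simp at hp <;> rcases hp with rfl | rfl <;> rfl
        rw [hc, e1]
        cases x <;> simp at hp <;> rcases hp with rfl | rfl <;> rfl
      · have hc : (cor i₁ i₂ p.1).1 = i₂ := by
          cases y <;> simp at hp <;> rcases hp with rfl | rfl <;> rfl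
        rw [hc, e2]
        cases y <;> simp at hp <;> rcases hp with rfl | rfl <;> rfl

theorem comps_addl (G : Shadow k) (i₁ i₂ : Fin k) (s : Fin k → Bool) :
    comps G i₁ i₂ (fun i => s i) =
      Nat.card (Quot (addl (Opened G i₁ i₂ (fun i => s i)) (cor i₁ i₂) lstK)) - 1 := by
  unfold comps
  congr 3
  funext c c'
  apply propext
  rw [addl_iff]
  unfold lstK cor
  simp

theorem circles_addl (G : Shadow k) (i₁ i₂ : Fin k) (s : Fin k → Bool) :
    circles G i₁ i₂ (fun i => s i) =
      Nat.card (Quot (addl (Opened G i₁ i₂ (fun i => s i)) (cor i₁ i₂) lstS)) - 1 := by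
  unfold circles
  congr 3
  funext c c'
  apply propext
  rw [addl_iff]
  unfold lstS cor
  simp

/-- the numbers of components of the states -/
theorem count (G : Shadow k) (hG : G.Checkerboard) (i₁ i₂ : Fin k) (hi : i₁ ≠ i₂)
    (ha : G.arc (i₁, 1) = (i₂, 3)) (hP : NoTriple G i₁ i₂) (s : Fin k → Bool) :
    ∃ l : ℕ,
      (G.loops (Function.update (Function.update s i₁ true) i₂ true) = l + 2 ∧
        G.loops (Function.update (Function.update s i₁ true) i₂ false) = l + 3 ∧
        G.loops (Function.update (Function.update s i₁ false) i₂ true) = l + 1 ∧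
        G.loops (Function.update (Function.update s i₁ false) i₂ false) = l + 2 ∧
        comps G i₁ i₂ (fun i => s i) = l + 1 ∧
        circles G i₁ i₂ (fun i => s i) = l + 2) ∨
      (G.loops (Function.update (Function.update s i₁ true) i₂ true) = l + 2 ∧
        G.loops (Function.update (Function.update s i₁ true) i₂ false) = l + 1 ∧
        G.loops (Function.update (Function.update s i₁ false) i₂ true) = l + 3 ∧
        G.loops (Function.update (Function.update s i₁ false) i₂ false) = l + 2 ∧
        comps G i₁ i₂ (fun i => s i) = l + 1 ∧
        circles G i₁ i₂ (fun i => s i) = l + 2) ∨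
      (G.loops (Function.update (Function.update s i₁ true) i₂ true) = l + 1 ∧
        G.loops (Function.update (Function.update s i₁ true) i₂ false) = l + 2 ∧
        G.loops (Function.update (Function.update s i₁ false) i₂ true) = l + 2 ∧
        G.loops (Function.update (Function.update s i₁ false) i₂ false) = l + 1 ∧
        comps G i₁ i₂ (fun i => s i) = l + 2 ∧
        circles G i₁ i₂ (fun i => s i) = l + 3) ∨
      (G.loops (Function.update (Function.update s i₁ true) i₂ true) = l + 1 ∧
        G.loops (Function.update (Function.update s i₁ true) i₂ false) = l + 2 ∧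
        G.loops (Function.update (Function.update s i₁ false) i₂ true) = l + 2 ∧
        G.loops (Function.update (Function.update s i₁ false) i₂ false) = l + 3 ∧
        comps G i₁ i₂ (fun i => s i) = l + 1 ∧
        circles G i₁ i₂ (fun i => s i) = l + 1) ∨
      (G.loops (Function.update (Function.update s i₁ true) i₂ true) = l + 3 ∧
        G.loops (Function.update (Function.update s i₁ true) i₂ false) = l + 2 ∧
        G.loops (Function.update (Function.update s i₁ false) i₂ true) = l + 2 ∧
        G.loops (Function.update (Function.update s i₁ false) i₂ false) = l + 1 ∧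
        comps G i₁ i₂ (fun i => s i) = l + 1 ∧
        circles G i₁ i₂ (fun i => s i) = l + 1) := by
  obtain ⟨lT, lA, lB, hc, hL⟩ := labels_cases G hG i₁ i₂ hi ha s
  have p1 := O3.loops_pos G i₁ (Function.update (Function.update s i₁ true) i₂ true)
  have p2 := O3.loops_pos G i₁ (Function.update (Function.update s i₁ true) i₂ false)
  have p3 := O3.loops_pos G i₁ (Function.update (Function.update s i₁ false) i₂ true)
  have p4 := O3.loops_pos G i₁ (Function.update (Function.update s i₁ false) i₂ false)
  have q1 := card_addl (cor i₁ i₂) (lst true true) _ _ hL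
  have q2 := card_addl (cor i₁ i₂) (lst true false) _ _ hL
  have q3 := card_addl (cor i₁ i₂) (lst false true) _ _ hL
  have q4 := card_addl (cor i₁ i₂) (lst false false) _ _ hL
  have q5 := card_addl (cor i₁ i₂) lstK _ _ hL
  rw [← loops_addl G i₁ i₂ hi s] at q1 q2 q3 q4
  have q6 := comps_addl G i₁ i₂ s
  have q7 := card_addl (cor i₁ i₂) lstS _ _ hL
  have q8 := circles_addl G i₁ i₂ s
  refine ⟨Nat.card (Quot (Opened G i₁ i₂ (fun i => s i))) - 4, ?_⟩
  simp only [Prod.mk.injEq] at hc
  rcases hc with ⟨rfl, rfl, rfl⟩ | ⟨rfl, rfl, rfl⟩ | ⟨rfl, rfl, rfl⟩ | ⟨rfl, rfl, rfl⟩ |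
    ⟨rfl, rfl, rfl⟩ | ⟨rfl, rfl, rfl⟩
  · left
    have t1 : total (lab 0 2 1) (lst true true) = 2 := by decide
    have t2 : total (lab 0 2 1) (lst true false) = 1 := by decide
    have t3 : total (lab 0 2 1) (lst false true) = 3 := by decide
    have t4 : total (lab 0 2 1) (lst false false) = 2 := by decide
    have t5 : total (lab 0 2 1) lstK = 2 := by decide
    have t6 : total (lab 0 2 1) lstS = 1 := by decide
    omega
  · right; left
    have t1 : total (lab 1 0 2) (lst true true) = 2 := by decide
    have t2 : total (lab 1 0 2) (lst true false) = 3 := by decide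
    have t3 : total (lab 1 0 2) (lst false true) = 1 := by decide
    have t4 : total (lab 1 0 2) (lst false false) = 2 := by decide
    have t5 : total (lab 1 0 2) lstK = 2 := by decide
    have t6 : total (lab 1 0 2) lstS = 1 := by decide
    omega
  · right; right; left
    have t1 : total (lab 2 0 1) (lst true true) = 3 := by decide
    have t2 : total (lab 2 0 1) (lst true false) = 2 := by decide
    have t3 : total (lab 2 0 1) (lst false true) = 2 := by decide
    have t4 : total (lab 2 0 1) (lst false false) = 3 := by decide
    have t5 : total (lab 2 0 1) lstK = 1 := by decide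
    have t6 : total (lab 2 0 1) lstS = 0 := by decide
    omega
  · right; right; right; left
    have t1 : total (lab 1 2 0) (lst true true) = 3 := by decide
    have t2 : total (lab 1 2 0) (lst true false) = 2 := by decide
    have t3 : total (lab 1 2 0) (lst false true) = 2 := by decide
    have t4 : total (lab 1 2 0) (lst false false) = 1 := by decide
    have t5 : total (lab 1 2 0) lstK = 2 := by decide
    have t6 : total (lab 1 2 0) lstS = 2 := by decide
    omega
  · right; right; right; right
    have t1 : total (lab 0 1 2) (lst true true) = 1 := by decide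
    have t2 : total (lab 0 1 2) (lst true false) = 2 := by decide
    have t3 : total (lab 0 1 2) (lst false true) = 2 := by decide
    have t4 : total (lab 0 1 2) (lst false false) = 3 := by decide
    have t5 : total (lab 0 1 2) lstK = 2 := by decide
    have t6 : total (lab 0 1 2) lstS = 2 := by decide
    omega
  · exfalso
    refine hP (fun i => s i) ⟨?_, ?_, ?_⟩
    · exact (hL (false, 3) (true, 1)).2 rfl
    · exact (hL (false, 2) (true, 0)).2 rfl
    · exact (hL (true, 2) (false, 0)).2 rfl

end Pool.Agent.Helper43_HT
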