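import Pool.Agent.Helper43_HT.Euler

set_option autoImplicit false

/-! The defect of a state (zero in the sphere). -/

namespace Pool.Agent.Helper43_HT

open Finset
open Pool.Agent.H891R2.HO
open Pool.Agent.H891R2.MT.T2 (card_quot_congr card_add_same card_add_ne)

variable {k : ℕ}

section defect

variable (G : Shadow k) (β : Fin k → Bool)

/-- the state which differs from `β` in `A` -/
def flip (β : Fin k → Bool) (A : Finset (Fin k)) (i : Fin k) : Bool := if i ∈ A then !(β i) else β i

/-- the components of the black surface of the state `flip β A` -/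
def crel (G : Shadow k) (β : Fin k → Bool) (A : Finset (Fin k)) (c c' : Fin k × Fin 4) : Prop :=
  c' = G.arc c ∨ c' = (c.1, pair (β c.1) c.2) ∨ (c.1 ∈ A ∧ c' = (c.1, c.2 + 2))

noncomputable def cc (G : Shadow k) (β : Fin k → Bool) (A : Finset (Fin k)) : ℕ :=
  Nat.card (Quot (crel G β A))

theorem flip_insert (A : Finset (Fin k)) (i : Fin k) (hi : i ∉ A) :
    flip β (insert i A) = Function.update (flip β A) i (!(β i)) := by
  funext j
  by_cases h : j = i
  · subst h
    rw [Function.update_self]
    unfold flip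
    rw [if_pos (mem_insert_self _ _)]
  · rw [Function.update_of_ne h]
    unfold flip
    simp [h]

theorem flip_self (A : Finset (Fin k)) (i : Fin k) (hi : i ∉ A) :
    flip β A = Function.update (flip β A) i (β i) := by
  funext j
  by_cases h : j = i
  · subst h
    rw [Function.update_self]
    unfold flip
    rw [if_neg hi]
  · rw [Function.update_of_ne h]

/-- all four corners of a crossing of `A` are in one component -/
theorem all_four {R : Fin k × Fin 4 → Fin k × Fin 4 → Prop} (i : Fin k) (b : Bool)
    (hp : ∀ j, Quot.mk R (i, j) = Quot.mk R (i, pair b j))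
    (h02 : Quot.mk R (i, 0) = Quot.mk R (i, 2)) (j : Fin 4) : Quot.mk R (i, j) = Quot.mk R (i, 0) := by
  cases b
  · have a1 : Quot.mk R (i, 1) = Quot.mk R (i, 2) := hp 1
    have a3 : Quot.mk R (i, 3) = Quot.mk R (i, 0) := hp 3
    fin_cases j
    · rfl
    · exact a1.trans h02.symm
    · exact h02.symm
    · exact a3
  · have a1 : Quot.mk R (i, 1) = Quot.mk R (i, 0) := hp 1
    have a3 : Quot.mk R (i, 3) = Quot.mk R (i, 2) := hp 3
    fin_cases j
    · rfl
    · exact a1
    · exact h02.symm
    · exact a3.trans h02.symm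

theorem cc_rel (A : Finset (Fin k)) (i : Fin k) :
    cc G β (insert i A) =
      Nat.card (Quot (fun x y => crel G β A x y ∨ (x = (i, (0 : Fin 4)) ∧ y = (i, 2)))) := by
  unfold cc
  set R : Fin k × Fin 4 → Fin k × Fin 4 → Prop :=
    fun x y => crel G β A x y ∨ (x = (i, (0 : Fin 4)) ∧ y = (i, 2)) with hR
  apply card_quot_congr
  · rintro x y (h | h | ⟨h, h'⟩)
    · exact Quot.sound (Or.inl (Or.inl h))
    · exact Quot.sound (Or.inl (Or.inr (Or.inl h)))
    · rw [mem_insert] at h
      rcases h with h | h
      · obtain ⟨i', j⟩ := x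
        have h0 : i' = i := h
        subst h0
        have hp : ∀ j, Quot.mk R (i', j) = Quot.mk R (i', pair (β i') j) :=
          fun j => Quot.sound (Or.inl (Or.inr (Or.inl rfl)))
        have h02 : Quot.mk R (i', (0 : Fin 4)) = Quot.mk R (i', 2) := Quot.sound (Or.inr ⟨rfl, rfl⟩)
        rw [h']
        show Quot.mk R (i', j) = Quot.mk R (i', j + 2)
        rw [all_four i' (β i') hp h02 j, all_four i' (β i') hp h02 (j + 2)]
      · exact Quot.sound (Or.inl (Or.inr (Or.inr ⟨h, h'⟩)))
  · rintro x y ((h | h | ⟨h, h'⟩) | ⟨h, h'⟩)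
    · exact Quot.sound (Or.inl h)
    · exact Quot.sound (Or.inr (Or.inl h))
    · exact Quot.sound (Or.inr (Or.inr ⟨mem_insert_of_mem h, h'⟩))
    · rw [h, h']
      exact Quot.sound (Or.inr (Or.inr ⟨mem_insert_self _ _, rfl⟩))

theorem cc_same (A : Finset (Fin k)) (i : Fin k)
    (h : Quot.mk (crel G β A) (i, (0 : Fin 4)) = Quot.mk (crel G β A) (i, 2)) :
    cc G β (insert i A) = cc G β A := by
  rw [cc_rel]
  exact card_add_same _ _ _ h

theorem cc_ne (A : Finset (Fin k)) (i : Fin k)
    (h : Quot.mk (crel G β A) (i, (0 : Fin 4)) ≠ Quot.mk (crel G β A) (i, 2)) :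
    cc G β (insert i A) + 1 = cc G β A := by
  rw [cc_rel]
  exact card_add_ne _ _ _ h

/-- a circle lies in one component -/
theorem loop_comp (A : Finset (Fin k)) (x y : Fin k × Fin 4) (h : lrel G (flip β A) x y) :
    Quot.mk (crel G β A) x = Quot.mk (crel G β A) y := by
  rcases h with h | h
  · exact Quot.sound (Or.inl h)
  · by_cases hx : x.1 ∈ A
    · have hp : ∀ j, Quot.mk (crel G β A) (x.1, j) = Quot.mk (crel G β A) (x.1, pair (β x.1) j) :=
        fun j => Quot.sound (Or.inr (Or.inl rfl))
      have h02 : Quot.mk (crel G β A) (x.1, (0 : Fin 4)) = Quot.mk (crel G β A) (x.1, 2) :=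
        Quot.sound (Or.inr (Or.inr ⟨hx, rfl⟩))
      have e : x = (x.1, x.2) := rfl
      rw [h, e, all_four x.1 (β x.1) hp h02 x.2]
      exact (all_four x.1 (β x.1) hp h02 _).symm
    · apply Quot.sound
      refine Or.inr (Or.inl ?_)
      rw [h]
      unfold flip
      rw [if_neg hx]

/-- two circles which meet at a crossing are joined when its smoothing is changed -/
theorem loops_merge (hG : G.Checkerboard) (S : Fin k → Bool) (i : Fin k) (b : Bool)
    (h : Quot.mk (lrel G S) (i, (0 : Fin 4)) ≠ Quot.mk (lrel G S) (i, 2)) (hb : b = !(S i)) :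
    G.loops (Function.update S i b) + 1 = G.loops S := by
  have f := loops_flip G hG S i
  have e0 : Function.update S i (S i) = S := Function.update_eq_self i S
  have l1 := O2.loops_card G i true S
  have l2 := O2.loops_card G i false S
  have h3 := card_add_ne (lrel G S) _ _ h
  have h4 : Nat.card (Quot (O2.r4 G S i)) ≤
      Nat.card (Quot (fun x y => lrel G S x y ∨ (x = (i, (0 : Fin 4)) ∧ y = (i, 2)))) := by
    have hw : ∀ x y, (lrel G S x y ∨ (x = (i, (0 : Fin 4)) ∧ y = (i, 2))) →
        Quot.mk (O2.r4 G S i) x = Quot.mk (O2.r4 G S i) y := by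
      rintro x y ((h | h) | ⟨h, h'⟩)
      · exact Quot.sound (Or.inl (Or.inl h))
      · by_cases hx : x.1 = i
        · exact Quot.sound (Or.inr ⟨hx, by rw [h]; exact hx⟩)
        · exact Quot.sound (Or.inl (Or.inr ⟨hx, h⟩))
      · exact Quot.sound (Or.inr ⟨by rw [h], by rw [h']⟩)
    exact Nat.card_le_card_of_surjective (Quot.lift (fun x => Quot.mk (O2.r4 G S i) x) hw)
      (by rintro ⟨x⟩; exact ⟨Quot.mk _ x, rfl⟩)
  rw [← loops_eq] at h3
  cases hS : S i
  · rw [hS] at hb e0
    rw [e0] at f l2
    have hb' : b = true := by rw [hb]; rfl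
    rw [hb']
    omega
  · rw [hS] at hb e0
    rw [e0] at f l1
    have hb' : b = false := by rw [hb]; rfl
    rw [hb']
    omega

/-- the defect -/
noncomputable def defect (G : Shadow k) (β : Fin k → Bool) (A : Finset (Fin k)) : ℤ :=
  2 * (cc G β A : ℤ) + A.card - G.loops (flip β A)

theorem defect_insert (hG : G.Checkerboard) (A : Finset (Fin k)) (i : Fin k) (hi : i ∉ A) :
    defect G β A ≤ defect G β (insert i A) := by
  unfold defect
  rw [card_insert_of_notMem hi, flip_insert β A i hi]
  have e0 := flip_self β A i hi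
  have f := loops_flip G hG (flip β A) i
  have hf : G.loops (Function.update (flip β A) i (!(β i))) = G.loops (flip β A) + 1 ∨
      G.loops (flip β A) = G.loops (Function.update (flip β A) i (!(β i))) + 1 := by
    have e1 : G.loops (flip β A) = G.loops (Function.update (flip β A) i (β i)) := by rw [← e0]
    rw [e1]
    cases β i
    · exact f
    · exact f.symm
  by_cases h : Quot.mk (crel G β A) (i, (0 : Fin 4)) = Quot.mk (crel G β A) (i, 2)
  · rw [cc_same G β A i h]
    push_cast
    omega
  · have h1 := cc_ne G β A i h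
    have h2 : Quot.mk (lrel G (flip β A)) (i, (0 : Fin 4)) ≠ Quot.mk (lrel G (flip β A)) (i, 2) := by
      intro h3
      exact h (congrArg (Quot.lift (fun x => Quot.mk (crel G β A) x) (loop_comp G β A)) h3)
    have h3 := loops_merge G hG (flip β A) i (!(β i)) h2 (by unfold flip; rw [if_neg hi])
    push_cast
    omega

theorem defect_union (hG : G.Checkerboard) (A C : Finset (Fin k)) :
    defect G β A ≤ defect G β (A ∪ C) := by
  induction C using Finset.induction_on with
  | empty => simp
  | insert i C hi ih =>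
    rw [Finset.union_insert]
    by_cases h : i ∈ A ∪ C
    · rw [Finset.insert_eq_of_mem h]; exact ih
    · exact ih.trans (defect_insert G β hG (A ∪ C) i h)

end defect

end Pool.Agent.Helper43_HT
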