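import Pool.Agent.H891R2.HO.Defs

set_option autoImplicit false

/-!
# Knotoid diagrams of height at most two

We use the starting library `Pool.Agent.H891R2.HO.Defs`: `Shadow k` (shadows of link diagrams with `k`
crossings; the corners of the crossing `i` are `(i, 0), (i, 1), (i, 2), (i, 3)` in counterclockwise order, and
`G.arc` says which corners are joined by the arcs), `Shadow.IsKnot`, `Shadow.Checkerboard` (the regions can be
coloured by two colours), `Shadow.Oriented`, `Shadow.sign`, `Shadow.unit n = (-A^3)^(-n)`, `Shadow.f G w o` (the
normalised bracket; `w i = true` means that at the crossing `i` the strand which joins the corners `1` and `3`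
is the upper one), `switch w i` (the crossing `i` is changed), `dd = -A^2 - A^(-2)`, `A = T 1`.

Let `i₁ ≠ i₂` be two crossings of the diagram of a knot which are neighbours along a strand: the corner
`(i₁, 1)` is joined with the corner `(i₂, 3)` by an arc.  Delete the piece of this strand which runs from the
corner `(i₁, 3)` through `i₁`, along the arc, and through `i₂` to the corner `(i₂, 1)`.  This gives a diagram
of a knotoid `K` with the endpoints `(i₁, 3)` and `(i₂, 1)`.  The deleted piece is a path between the endpoints
which crosses the diagram of `K` in two points, so that `K` has height at most two; and all knotoid diagrams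
whose endpoints can be joined by a path which crosses the diagram in two points arise in this way (number the
corners of `i₁` and `i₂` such that the path runs from `3` to `1`).  If the deleted piece lies above (below)
the two strands which it crosses then the diagram of the knot is the over-closure (under-closure) of `K`.
-/

namespace Pool.Agent.Helper43_HT

open Finset LaurentPolynomial
open Pool.Agent.H891R2.HO

variable {k : ℕ}

/-- the crossings of the knotoid diagram -/
abbrev Other (i₁ i₂ : Fin k) : Type := {i : Fin k // i ≠ i₁ ∧ i ≠ i₂}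

/-- two corners are joined by an arc or in the smoothing `s` of a crossing of the knotoid diagram
(nothing is joined at `i₁` and `i₂`) -/
def Opened (G : Shadow k) (i₁ i₂ : Fin k) (s : Other i₁ i₂ → Bool) (c c' : Fin k × Fin 4) : Prop :=
  c' = G.arc c ∨ ∃ h : c.1 ≠ i₁ ∧ c.1 ≠ i₂, c' = (c.1, pair (s ⟨c.1, h⟩) c.2)

/-- the number of components (circles and the interval) of the state `s` of the knotoid diagram: the two
strands which are crossed by the deleted piece join the corners `0` and `2` of `i₁` and of `i₂`; the arc between
`(i₁, 1)` and `(i₂, 3)` has been deleted and is not counted -/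
noncomputable def comps (G : Shadow k) (i₁ i₂ : Fin k) (s : Other i₁ i₂ → Bool) : ℕ :=
  Nat.card (Quot (fun c c' : Fin k × Fin 4 => Opened G i₁ i₂ s c c' ∨
    (c = (i₁, 0) ∧ c' = (i₁, 2)) ∨ (c = (i₂, 0) ∧ c' = (i₂, 2)))) - 1

/-- The number of circles of the state `s` of the saddle link: the endpoints `(i₁, 3)` and `(i₂, 1)` are
joined along the deleted piece, and the two strands which it crosses are cut and joined at both sides of it,
`(i₁, 2)` with `(i₂, 2)` and `(i₁, 0)` with `(i₂, 0)`.  (The arc between `(i₁, 1)` and `(i₂, 3)` is again not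
counted.)  The saddle link is a classical link, with the crossings of the knotoid diagram. -/
noncomputable def circles (G : Shadow k) (i₁ i₂ : Fin k) (s : Other i₁ i₂ → Bool) : ℕ :=
  Nat.card (Quot (fun c c' : Fin k × Fin 4 => Opened G i₁ i₂ s c c' ∨
    (c = (i₁, 3) ∧ c' = (i₂, 1)) ∨ (c = (i₁, 2) ∧ c' = (i₂, 2)) ∨ (c = (i₁, 0) ∧ c' = (i₂, 0)))) - 1

/-- the bracket of the knotoid diagram -/
noncomputable def bracketK (G : Shadow k) (w : Fin k → Bool) (i₁ i₂ : Fin k) : ℤ[T;T⁻¹] :=
  ∑ s : Other i₁ i₂ → Bool, T (∑ i, if s i = w i then 1 else -1) * dd ^ (comps G i₁ i₂ s - 1)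

/-- the normalised bracket `(-A^3)^(-w(K)) ⟨K⟩` of the knotoid diagram -/
noncomputable def fK (G : Shadow k) (w : Fin k → Bool) (o : Fin k × Fin 4 → Bool) (i₁ i₂ : Fin k) :
    ℤ[T;T⁻¹] :=
  Shadow.unit (∑ i : Other i₁ i₂, Shadow.sign w o i) * bracketK G w i₁ i₂

/-- the bracket of the saddle link -/
noncomputable def bracketS (G : Shadow k) (w : Fin k → Bool) (i₁ i₂ : Fin k) : ℤ[T;T⁻¹] :=
  ∑ s : Other i₁ i₂ → Bool, T (∑ i, if s i = w i then 1 else -1) * dd ^ (circles G i₁ i₂ s - 1)

/-- the bracket of the saddle link, normalised by the writhe of the knotoid diagram,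
`(-A^3)^(-w(K)) ⟨saddle link⟩` -/
noncomputable def fS (G : Shadow k) (w : Fin k → Bool) (o : Fin k × Fin 4 → Bool) (i₁ i₂ : Fin k) :
    ℤ[T;T⁻¹] :=
  Shadow.unit (∑ i : Other i₁ i₂, Shadow.sign w o i) * bracketS G w i₁ i₂

/-- Go along the arc which leaves the crossing at the corner `c` and then turn to the next corner such that the
region at the left side does not change. -/
def face (G : Shadow k) (c c' : Fin k × Fin 4) : Prop := c' = ((G.arc c).1, (G.arc c).2 + 3)

/-- the number of the regions of the diagram -/
noncomputable def regions (G : Shadow k) : ℕ := Nat.card (Quot (face G))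

/-- the (connected) diagram lies in the sphere: it has `k` vertices, `2 k` edges and `k + 2` regions (Euler) -/
def Spherical (G : Shadow k) : Prop := regions G = k + 2

/-- The situation of the theorem: `(G, w, o)` is an oriented diagram of a knot in the sphere, the corner
`(i₁, 1)` is joined with the corner `(i₂, 3)` by an arc, and the piece from `(i₁, 3)` through `i₁` and `i₂` to
`(i₂, 1)` lies above the two strands which it crosses.  (All diagrams in the sphere are checkerboard
colourable.) -/
structure IsOverClosure (G : Shadow k) (w : Fin k → Bool) (o : Fin k × Fin 4 → Bool) (i₁ i₂ : Fin k) :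
    Prop where
  checkerboard : G.Checkerboard
  knot : G.IsKnot
  oriented : G.Oriented o
  ne : i₁ ≠ i₂
  arc : G.arc (i₁, 1) = (i₂, 3)
  spherical : Spherical G
  over₁ : w i₁ = true
  over₂ : w i₂ = true

/-- the normalised bracket of the over-closure -/
noncomputable def fOver (G : Shadow k) (w : Fin k → Bool) (o : Fin k × Fin 4 → Bool) : ℤ[T;T⁻¹] := G.f w o

/-- the normalised bracket of the under-closure: the crossings `i₁` and `i₂` are changed -/
noncomputable def fUnder (G : Shadow k) (w : Fin k → Bool) (o : Fin k × Fin 4 → Bool) (i₁ i₂ : Fin k) :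
    ℤ[T;T⁻¹] := G.f (switch (switch w i₁) i₂) o

/-- `m`: the sum of the signs of the crossings `i₁` and `i₂` of the over-closure; `m = 0` if the deleted piece
crosses two strands of opposite directions, `m = ± 2` if they have the same direction -/
def idx (w : Fin k → Bool) (o : Fin k × Fin 4 → Bool) (i₁ i₂ : Fin k) : ℤ :=
  Shadow.sign w o i₁ + Shadow.sign w o i₂

/-- `A^(3 m) f(K_over) + A^(-3 m) f(K_under)` -/
noncomputable def fSum (G : Shadow k) (w : Fin k → Bool) (o : Fin k × Fin 4 → Bool) (i₁ i₂ : Fin k) :
    ℤ[T;T⁻¹] :=
  T (3 * idx w o i₁ i₂) * fOver G w o + T (-(3 * idx w o i₁ i₂)) * fUnder G w o i₁ i₂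

end Pool.Agent.Helper43_HT
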