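import Pool.Agent.Helper43_HT.Alg

set_option autoImplicit false

/-! The condition `NoTriple` for diagrams in the sphere (Euler characteristic). -/

namespace Pool.Agent.Helper43_HT

open Finset
open Pool.Agent.H891R2.HO
open Pool.Agent.H891R2.MT.T2 (card_quot_congr card_add_same card_add_ne)

variable {k : ℕ}

section euler

variable (G : Shadow k) (χ : Fin k × Fin 4 → Bool)
  (h1 : ∀ c, χ (G.arc c) = !(χ c)) (h2 : ∀ i j, χ (i, j + 1) = !(χ (i, j)))

/-- the relation whose classes are the circles of a state -/
def lrel (G : Shadow k) (S : Fin k → Bool) (c c' : Fin k × Fin 4) : Prop :=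
  c' = G.arc c ∨ c' = (c.1, pair (S c.1) c.2)

theorem loops_eq (G : Shadow k) (S : Fin k → Bool) : G.loops S = Nat.card (Quot (lrel G S)) := rfl

include h2 in
theorem chi_even (i : Fin k) : χ (i, 1) = !(χ (i, 0)) ∧ χ (i, 2) = χ (i, 0) ∧ χ (i, 3) = !(χ (i, 0)) := by
  have a1 : χ (i, 1) = !(χ (i, 0)) := h2 i 0
  have a2 : χ (i, 2) = !(χ (i, 1)) := h2 i 1
  have a3 : χ (i, 3) = !(χ (i, 2)) := h2 i 2
  rw [a1, Bool.not_not] at a2
  rw [a2] at a3
  exact ⟨a1, a2, a3⟩

include h2 in
theorem pair_true (i : Fin k) (j : Fin 4) (h : χ (i, j) = true) : pair (χ (i, 0)) j = j + 1 := by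
  obtain ⟨a1, a2, a3⟩ := chi_even χ h2 i
  cases h0 : χ (i, 0) <;> rw [h0] at a1 a2 a3 <;> fin_cases j <;> simp_all [pair]

include h2 in
theorem pair_false (i : Fin k) (j : Fin 4) (h : χ (i, j) = false) : pair (χ (i, 0)) j = j + 3 := by
  obtain ⟨a1, a2, a3⟩ := chi_even χ h2 i
  cases h0 : χ (i, 0) <;> rw [h0] at a1 a2 a3 <;> fin_cases j <;> simp_all [pair]

include h2 in
theorem chi_three' (i : Fin k) (j : Fin 4) : χ (i, j + 3) = !(χ (i, j)) := by
  obtain ⟨a1, a2, a3⟩ := chi_even χ h2 i
  fin_cases j
  · exact a3
  · show χ (i, 0) = !(χ (i, 1))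
    rw [a1, Bool.not_not]
  · show χ (i, 1) = !(χ (i, 2))
    rw [a1, a2]
  · show χ (i, 2) = !(χ (i, 3))
    rw [a2, a3, Bool.not_not]

include h1 h2 in
theorem chi_face (c c' : Fin k × Fin 4) (h : face G c c') : χ c = χ c' := by
  unfold face at h
  rw [h, chi_three' χ h2]
  show χ c = !(χ (G.arc c))
  rw [h1, Bool.not_not]

/-- the colour of a region -/
def col : Quot (face G) → Bool := Quot.lift χ (chi_face G χ h1 h2)

theorem add_one_three (j : Fin 4) : j + 1 + 3 = j := by
  revert j; decide

/-- the circles of the state `χ (i, 0)` are the boundaries of the regions of colour `true` -/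
theorem loops_col : G.loops (fun i => χ (i, 0)) =
    Nat.card {q : Quot (face G) // col G χ h1 h2 q = true} := by
  classical
  rw [loops_eq]
  have hwd : ∀ c c', lrel G (fun i => χ (i, 0)) c c' →
      (if χ c = true then Quot.mk (face G) c else Quot.mk (face G) (G.arc c)) =
      (if χ c' = true then Quot.mk (face G) c' else Quot.mk (face G) (G.arc c')) := by
    rintro c c' (h | h)
    · rw [h]
      by_cases hc : χ c = true
      · have e : χ (G.arc c) = false := by rw [h1, hc]; rfl
        rw [if_pos hc, if_neg (by rw [e]; exact Bool.false_ne_true), G.arc_arc]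
      · have hc0 : χ c = false := by simpa using hc
        have e : χ (G.arc c) = true := by rw [h1, hc0]; rfl
        rw [if_neg hc, if_pos e]
    · obtain ⟨i, j⟩ := c
      by_cases hc : χ (i, j) = true
      · have e0 : c' = (i, j + 1) := by
          rw [h]; show (i, pair (χ (i, 0)) j) = _
          rw [pair_true χ h2 i j hc]
        have e : χ (i, j + 1) = false := by rw [h2, hc]; rfl
        rw [e0, if_pos hc, if_neg (by rw [e]; exact Bool.false_ne_true)]
        symm
        apply Quot.sound
        show (i, j) = ((G.arc (G.arc (i, j + 1))).1, (G.arc (G.arc (i, j + 1))).2 + 3)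
        rw [G.arc_arc]
        show (i, j) = (i, j + 1 + 3)
        rw [add_one_three]
      · have hc0 : χ (i, j) = false := by simpa using hc
        have e0 : c' = (i, j + 3) := by
          rw [h]; show (i, pair (χ (i, 0)) j) = _
          rw [pair_false χ h2 i j hc0]
        have e : χ (i, j + 3) = true := by rw [chi_three' χ h2, hc0]; rfl
        rw [e0, if_neg hc, if_pos e]
        apply Quot.sound
        show (i, j + 3) = ((G.arc (G.arc (i, j))).1, (G.arc (G.arc (i, j))).2 + 3)
        rw [G.arc_arc]
  set f : Quot (lrel G (fun i => χ (i, 0))) → Quot (face G) := Quot.lift _ hwd with hf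
  have hcol : ∀ q, col G χ h1 h2 (f q) = true := by
    rintro ⟨c⟩
    show col G χ h1 h2 (if χ c = true then Quot.mk (face G) c else Quot.mk (face G) (G.arc c)) = true
    by_cases hc : χ c = true
    · rw [if_pos hc]; exact hc
    · rw [if_neg hc]
      have hc0 : χ c = false := by simpa using hc
      show χ (G.arc c) = true
      rw [h1, hc0]; rfl
  have hgd : ∀ c c', face G c c' →
      (if χ c = true then some (Quot.mk (lrel G (fun i => χ (i, 0))) c) else none) =
      (if χ c' = true then some (Quot.mk (lrel G (fun i => χ (i, 0))) c') else none) := by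
    intro c c' h
    have e := chi_face G χ h1 h2 c c' h
    by_cases hc : χ c = true
    · have hc' : χ c' = true := by rw [← e]; exact hc
      rw [if_pos hc, if_pos hc']
      congr 1
      have e1 : Quot.mk (lrel G (fun i => χ (i, 0))) c =
          Quot.mk (lrel G (fun i => χ (i, 0))) (G.arc c) := Quot.sound (Or.inl rfl)
      rw [e1]
      apply Quot.sound
      right
      have e2 : χ ((G.arc c).1, (G.arc c).2) = false := by
        show χ (G.arc c) = false
        rw [h1, hc]; rfl
      show c' = ((G.arc c).1, pair (χ ((G.arc c).1, 0)) (G.arc c).2)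
      rw [pair_false χ h2 _ _ e2]
      exact h
    · have hc' : ¬ χ c' = true := by rw [← e]; exact hc
      rw [if_neg hc, if_neg hc']
  set g : Quot (face G) → Option (Quot (lrel G (fun i => χ (i, 0)))) := Quot.lift _ hgd with hg
  have hgf : ∀ q, g (f q) = some q := by
    rintro ⟨c⟩
    show g (if χ c = true then Quot.mk (face G) c else Quot.mk (face G) (G.arc c)) = _
    by_cases hc : χ c = true
    · rw [if_pos hc]
      show (if χ c = true then some (Quot.mk (lrel G (fun i => χ (i, 0))) c) else none) = _
      rw [if_pos hc]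
    · rw [if_neg hc]
      have hc0 : χ c = false := by simpa using hc
      have e : χ (G.arc c) = true := by rw [h1, hc0]; rfl
      show (if χ (G.arc c) = true then some (Quot.mk (lrel G (fun i => χ (i, 0))) (G.arc c))
        else none) = _
      rw [if_pos e]
      congr 1
      exact (Quot.sound (r := lrel G (fun i => χ (i, 0))) (Or.inl rfl)).symm
  apply Nat.card_congr
  refine Equiv.ofBijective (fun q => ⟨f q, hcol q⟩) ⟨?_, ?_⟩
  · intro a b hab
    have e : f a = f b := congrArg Subtype.val hab
    have e2 := hgf a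
    rw [e, hgf b] at e2
    exact (Option.some.inj e2).symm
  · rintro ⟨⟨c⟩, hc⟩
    refine ⟨Quot.mk _ c, ?_⟩
    apply Subtype.ext
    have hc' : χ c = true := hc
    show (if χ c = true then Quot.mk (face G) c else Quot.mk (face G) (G.arc c)) = Quot.mk (face G) c
    rw [if_pos hc']

include h1 h2 in
/-- the numbers of the regions of the two colours -/
theorem regions_eq : regions G = G.loops (fun i => χ (i, 0)) + G.loops (fun i => !(χ (i, 0))) := by
  classical
  have h1' : ∀ c, (fun c => !(χ c)) (G.arc c) = !((fun c => !(χ c)) c) := by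
    intro c; show (!(χ (G.arc c))) = !(!(χ c)); rw [h1]
  have h2' : ∀ i j, (fun c : Fin k × Fin 4 => !(χ c)) (i, j + 1) =
      !((fun c : Fin k × Fin 4 => !(χ c)) (i, j)) := by
    intro i j; show (!(χ (i, j + 1))) = !(!(χ (i, j))); rw [h2]
  have e1 := loops_col G χ h1 h2
  have e2 := loops_col G (fun c => !(χ c)) h1' h2'
  have e3 : Nat.card {q : Quot (face G) // col G (fun c => !(χ c)) h1' h2' q = true} =
      Nat.card {q : Quot (face G) // ¬ (col G χ h1 h2 q = true)} := by
    apply Nat.card_congr
    apply Equiv.subtypeEquivRight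
    rintro ⟨c⟩
    show ((!(χ c)) = true) ↔ ¬ (χ c = true)
    cases χ c <;> simp
  have e4 : regions G = Nat.card {q : Quot (face G) // col G χ h1 h2 q = true} +
      Nat.card {q : Quot (face G) // ¬ (col G χ h1 h2 q = true)} := by
    unfold regions
    rw [← Nat.card_sum]
    exact (Nat.card_congr (Equiv.sumCompl _)).symm
  rw [e4, e1, ← e3, ← e2]

end euler

end Pool.Agent.Helper43_HT
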