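import Pool.Agent.Helper43_HT.Planar

set_option autoImplicit false

/-! The normalised brackets of the closures. -/

namespace Pool.Agent.Helper43_HT

open Finset LaurentPolynomial
open Pool.Agent.H891R2.HO
open Pool.Agent.H891R2.HO.O6 (Sup)

variable {k : ℕ}

theorem unit_add_even (a b : ℤ) (hb : Even b) : Shadow.unit (a + b) = Shadow.unit a * T (-3 * b) := by
  unfold Shadow.unit
  have h1 : Even (a + b) ↔ Even a := by
    rw [Int.even_add]; tauto
  have h2 : (T (-3 * (a + b)) : ℤ[T;T⁻¹]) = T (-3 * a) * T (-3 * b) := by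
    rw [← T_add]; congr 1; ring
  rw [h2]
  by_cases ha : Even a
  · rw [if_pos ha, if_pos (h1.2 ha)]; ring
  · rw [if_neg ha, if_neg (fun h => ha (h1.1 h))]; ring

theorem unit_sup (a E : ℤ) (p : ℤ[T;T⁻¹]) (h : Sup E p) : Sup (E - 3 * a) (Shadow.unit a * p) := by
  unfold Shadow.unit
  have h1 := h.mul_T (-3 * a)
  have e : E + -3 * a = E - 3 * a := by ring
  rw [e] at h1
  split_ifs
  · rw [one_mul, mul_comm (T _) p]; exact h1
  · have e1 : (-1 : ℤ[T;T⁻¹]) * T (-3 * a) * p = -(p * T (-3 * a)) := by ring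
    rw [e1]; exact h1.neg

theorem sign_pm (w : Fin k → Bool) (o : Fin k × Fin 4 → Bool) (i : Fin k) :
    Shadow.sign w o i = 1 ∨ Shadow.sign w o i = -1 := by
  unfold Shadow.sign
  split_ifs
  · right; rfl
  · left; rfl

theorem sign_not (w w' : Fin k → Bool) (o : Fin k × Fin 4 → Bool) (i : Fin k) (h : w' i = !(w i)) :
    Shadow.sign w' o i = -Shadow.sign w o i := by
  unfold Shadow.sign
  rw [h]
  cases w i <;> by_cases h2 : o (i, 0) = o (i, 1) <;> simp [h2]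

theorem sign_same (w w' : Fin k → Bool) (o : Fin k × Fin 4 → Bool) (i : Fin k) (h : w' i = w i) :
    Shadow.sign w' o i = Shadow.sign w o i := by
  unfold Shadow.sign
  rw [h]

/-- the exponents of all states of the diagram of a knot -/
theorem e_knot (G : Shadow k) (hG : G.Checkerboard) (hK : G.IsKnot) (w : Fin k → Bool)
    (o : Fin k × Fin 4 → Bool) (ho : G.Oriented o) :
    (2 : ℤ) ∣ (∑ i, Shadow.sign w o i) - k ∧
      ∀ S, (4 : ℤ) ∣ O6.e G w S - ((∑ i, Shadow.sign w o i) + 2 * k) := by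
  set W : ℤ := ∑ i, Shadow.sign w o i with hW
  have hW2 : (2 : ℤ) ∣ W - k := by
    have h1 : W - k = ∑ i, (Shadow.sign w o i - 1) := by
      rw [Finset.sum_sub_distrib, ← hW]; simp
    rw [h1]
    refine Finset.dvd_sum fun i _ => ?_
    rcases sign_pm w o i with h | h <;> rw [h] <;> norm_num
  refine ⟨hW2, ?_⟩
  have hs := loops_seifert G o ho hK
  have he0 : O6.e G w (fun i => xor (o (i, 0)) (o (i, 1))) =
      W + 2 * ((G.loops (fun i => xor (o (i, 0)) (o (i, 1))) : ℤ) - 1) := by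
    unfold O6.e
    congr 1
    rw [hW]
    exact Finset.sum_congr rfl fun i _ => O6.seifert_sign w o i
  intro S
  have h1 := O6.e_all G w (fun s i => loops_flip G hG s i) (fun i => xor (o (i, 0)) (o (i, 1))) S
  rw [he0] at h1
  omega

theorem idx_cases (w : Fin k → Bool) (o : Fin k × Fin 4 → Bool) (i₁ i₂ : Fin k) :
    idx w o i₁ i₂ = 0 ∨ idx w o i₁ i₂ = 2 ∨ idx w o i₁ i₂ = -2 := by
  unfold idx
  rcases sign_pm w o i₁ with h | h <;> rcases sign_pm w o i₂ with h' | h' <;> rw [h, h'] <;> norm_num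

theorem main (G : Shadow k) (w : Fin k → Bool) (o : Fin k × Fin 4 → Bool) (i₁ i₂ : Fin k)
    (h : IsOverClosure G w o i₁ i₂) :
    ∃ p q : ℤ[T;T⁻¹], fK G w o i₁ i₂ = p + q ∧ Sup (idx w o i₁ i₂) p ∧ Sup (idx w o i₁ i₂ + 2) q ∧
      fSum G w o i₁ i₂ = 2 * p + (T 6 + T (-6)) * q ∧ fS G w o i₁ i₂ = dd * p + q := by
  obtain ⟨hG, hK, ho, hi, ha, hS, hw₁, hw₂⟩ := h
  have hP := noTriple G hG hK hS i₁ i₂ hi ha
  set m := idx w o i₁ i₂ with hm
  have hm2 : Even m := by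
    rcases idx_cases w o i₁ i₂ with h | h | h <;> rw [hm, h] <;> decide
  set V : ℤ := ∑ i : Other i₁ i₂, Shadow.sign w o i with hV
  obtain ⟨hpar, hE⟩ := e_knot G hG hK w o ho
  have hW : ∑ i, Shadow.sign w o i = V + m := by
    rw [sum_other i₁ i₂ hi, hm, idx, hV]; ring
  have hW' : ∑ i, Shadow.sign (switch (switch w i₁) i₂) o i = V + -m := by
    rw [sum_other i₁ i₂ hi, sign_not w _ o i₁ (switch_one w i₁ i₂ hi),
      sign_not w _ o i₂ (switch_two w i₁ i₂ hi), hm, idx, hV]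
    have : ∑ i : Other i₁ i₂, Shadow.sign (switch (switch w i₁) i₂) o i =
        ∑ i : Other i₁ i₂, Shadow.sign w o i := by
      refine Finset.sum_congr rfl fun i _ => ?_
      apply sign_same
      unfold switch
      rw [Function.update_of_ne i.2.2, Function.update_of_ne i.2.1]
    rw [this]; ring
  rw [hW] at hE hpar
  obtain ⟨p, q, e1, e2, e3, e4, e5⟩ := decomp G hG w i₁ i₂ hi ha hP hw₁ hw₂ _ hE
  have hd : (4 : ℤ) ∣ (V + m + 2 * k) - 3 * V - m := by
    obtain ⟨a, ha⟩ := hm2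
    omega
  refine ⟨Shadow.unit V * p, Shadow.unit V * q, ?_, ?_, ?_, ?_, ?_⟩
  · unfold fK
    rw [e1, mul_add]
  · exact (unit_sup V _ p e2).congr hd
  · refine (unit_sup V _ q e3).congr ?_
    omega
  · unfold fSum fOver fUnder Shadow.f
    rw [← hm, hW, hW', unit_add_even V m hm2, unit_add_even V (-m) hm2.neg]
    have t1 : (T (3 * m) : ℤ[T;T⁻¹]) * T (-3 * m) = 1 := by
      rw [← T_add, ← T_zero]; congr 1; ring
    have t2 : (T (-(3 * m)) : ℤ[T;T⁻¹]) * T (-3 * -m) = 1 := by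
      rw [← T_add, ← T_zero]; congr 1; ring
    linear_combination (Shadow.unit V * G.bracket w) * t1 +
      (Shadow.unit V * G.bracket (switch (switch w i₁) i₂)) * t2 + Shadow.unit V * e4
  · unfold fS
    rw [← hV, e5]; ring

theorem sup_unique (a : ℤ) (p q p' q' : ℤ[T;T⁻¹]) (hp : Sup a p) (hq : Sup (a + 2) q)
    (hp' : Sup a p') (hq' : Sup (a + 2) q') (h : p + q = p' + q') : p = p' ∧ q = q' := by
  have h1 : p - p' = q' - q := by linear_combination h
  have h2 : Sup a (p - p') := by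
    rw [sub_eq_add_neg]; exact hp.add hp'.neg
  have h3 : Sup (a + 2) (p - p') := by
    rw [h1, sub_eq_add_neg]; exact hq'.add hq.neg
  have h4 : p - p' = 0 := by
    apply O7.ext_coeff
    intro j
    by_contra hj
    have hj' : (p - p').coeff j ≠ 0 := hj
    have d1 := h2 j hj'
    have d2 := h3 j hj'
    omega
  refine ⟨sub_eq_zero.1 h4, ?_⟩
  rw [h4] at h1
  exact (sub_eq_zero.1 h1.symm).symm

theorem coeff_T (a j : ℤ) : (T a : ℤ[T;T⁻¹]).coeff j = if a = j then 1 else 0 := Finsupp.single_apply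

theorem det_ne : (2 - (T 6 + T (-6)) * dd : ℤ[T;T⁻¹]) ≠ 0 := by
  have e : (2 - (T 6 + T (-6)) * dd : ℤ[T;T⁻¹]) = T 8 + T 4 + T (-4) + T (-8) + 2 * T 0 := by
    have h1 : (T 6 : ℤ[T;T⁻¹]) * T 2 = T 8 := by rw [← T_add]; norm_num
    have h2 : (T 6 : ℤ[T;T⁻¹]) * T (-2) = T 4 := by rw [← T_add]; norm_num
    have h3 : (T (-6) : ℤ[T;T⁻¹]) * T 2 = T (-4) := by rw [← T_add]; norm_num
    have h4 : (T (-6) : ℤ[T;T⁻¹]) * T (-2) = T (-8) := by rw [← T_add]; norm_num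
    rw [T_zero]
    unfold dd
    linear_combination h1 + h2 + h3 + h4
  intro h
  rw [e] at h
  have h5 : (T 8 + T 4 + T (-4) + T (-8) + 2 * T 0 : ℤ[T;T⁻¹]).coeff 8 = 0 := by rw [h]; rfl
  rw [two_mul] at h5
  simp only [AddMonoidAlgebra.coeff_add, Finsupp.add_apply, coeff_T] at h5
  norm_num at h5

theorem solve (p q p' q' : ℤ[T;T⁻¹]) (h1 : 2 * p + (T 6 + T (-6)) * q = 2 * p' + (T 6 + T (-6)) * q')
    (h2 : dd * p + q = dd * p' + q') : p = p' ∧ q = q' := by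
  have h3 : (2 - (T 6 + T (-6)) * dd) * (p - p') = 0 := by
    linear_combination h1 - (T 6 + T (-6)) * h2
  have h4 : p = p' := by
    rcases mul_eq_zero.1 h3 with h | h
    · exact absurd h det_ne
    · exact sub_eq_zero.1 h
  subst h4
  exact ⟨rfl, add_left_cancel h2⟩

/-- two knotoid diagrams -/
theorem two {k k' : ℕ} (G : Shadow k) (w : Fin k → Bool) (o : Fin k × Fin 4 → Bool) (i₁ i₂ : Fin k)
    (h : IsOverClosure G w o i₁ i₂)
    (G' : Shadow k') (w' : Fin k' → Bool) (o' : Fin k' × Fin 4 → Bool) (i₁' i₂' : Fin k')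
    (h' : IsOverClosure G' w' o' i₁' i₂') (hd : (4 : ℤ) ∣ idx w' o' i₁' i₂' - idx w o i₁ i₂) :
    fK G w o i₁ i₂ = fK G' w' o' i₁' i₂' ↔
      (fSum G w o i₁ i₂ = fSum G' w' o' i₁' i₂' ∧ fS G w o i₁ i₂ = fS G' w' o' i₁' i₂') := by
  obtain ⟨p, q, e1, e2, e3, e4, e5⟩ := main G w o i₁ i₂ h
  obtain ⟨p', q', e1', e2', e3', e4', e5'⟩ := main G' w' o' i₁' i₂' h'
  constructor
  · intro hf
    obtain ⟨rfl, rfl⟩ := sup_unique _ p q p' q' e2 e3 (e2'.congr hd)
      (e3'.congr (by omega)) (by rw [← e1, ← e1', hf])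
    rw [e4, e4', e5, e5']
    exact ⟨rfl, rfl⟩
  · rintro ⟨a1, a2⟩
    obtain ⟨rfl, rfl⟩ := solve p q p' q' (by rw [← e4, ← e4', a1]) (by rw [← e5, ← e5', a2])
    rw [e1, e1']

/-- knotoid diagrams with trivial normalised bracket -/
theorem one (G : Shadow k) (w : Fin k → Bool) (o : Fin k × Fin 4 → Bool) (i₁ i₂ : Fin k)
    (h : IsOverClosure G w o i₁ i₂) :
    fK G w o i₁ i₂ = 1 ↔
      (fSum G w o i₁ i₂ = T (3 * idx w o i₁ i₂) + T (-(3 * idx w o i₁ i₂)) ∧
        fS G w o i₁ i₂ = if idx w o i₁ i₂ = 0 then dd else 1) := by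
  obtain ⟨p, q, e1, e2, e3, e4, e5⟩ := main G w o i₁ i₂ h
  rw [e1, e4, e5]
  have hz : (2 : ℤ[T;T⁻¹]) * 0 + (T 6 + T (-6)) * 1 = T 6 + T (-6) := by ring
  rcases idx_cases w o i₁ i₂ with hm | hm | hm
  · rw [hm] at e2 e3 ⊢
    rw [if_pos rfl]
    constructor
    · intro hf
      obtain ⟨rfl, rfl⟩ := sup_unique 0 p q 1 0 e2 e3 Sup.one (Sup.zero _) (by rw [hf, add_zero])
      norm_num
    · rintro ⟨a1, a2⟩
      obtain ⟨rfl, rfl⟩ := solve p q 1 0 (by rw [a1]; norm_num) (by rw [a2]; ring)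
      rw [add_zero]
  · rw [hm] at e2 e3 ⊢
    rw [if_neg (by norm_num)]
    constructor
    · intro hf
      obtain ⟨rfl, rfl⟩ := sup_unique 2 p q 0 1 e2 e3 (Sup.zero _) (Sup.one.congr (by norm_num))
        (by rw [hf, zero_add])
      refine ⟨by norm_num, by ring⟩
    · rintro ⟨a1, a2⟩
      obtain ⟨rfl, rfl⟩ := solve p q 0 1 (by rw [a1]; norm_num) (by rw [a2]; ring)
      rw [zero_add]
  · rw [hm] at e2 e3 ⊢
    rw [if_neg (by norm_num)]
    constructor
    · intro hf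
      obtain ⟨rfl, rfl⟩ := sup_unique (-2) p q 0 1 e2 e3 (Sup.zero _) (Sup.one.congr (by norm_num))
        (by rw [hf, zero_add])
      refine ⟨?_, by ring⟩
      norm_num
      ring
    · rintro ⟨a1, a2⟩
      obtain ⟨rfl, rfl⟩ := solve p q 0 1 (by rw [a1]; norm_num; ring) (by rw [a2]; ring)
      rw [zero_add]

theorem T_cancel (n : ℤ) (f : ℤ[T;T⁻¹]) (h : T n * f = 0) : f = 0 := by
  have h1 : (T (-n) : ℤ[T;T⁻¹]) * T n = 1 := by
    rw [← T_add, ← T_zero]; congr 1; ring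
  calc f = T (-n) * T n * f := by rw [h1, one_mul]
    _ = T (-n) * (T n * f) := by ring
    _ = 0 := by rw [h, mul_zero]

theorem rel_iff (G : Shadow k) (w : Fin k → Bool) (o : Fin k × Fin 4 → Bool) (i₁ i₂ : Fin k)
    (hf : fSum G w o i₁ i₂ = T (3 * idx w o i₁ i₂) + T (-(3 * idx w o i₁ i₂))) :
    fOver G w o = 1 ↔ fUnder G w o i₁ i₂ = 1 := by
  unfold fSum at hf
  have h1 : T (3 * idx w o i₁ i₂) * (fOver G w o - 1) =
      -(T (-(3 * idx w o i₁ i₂)) * (fUnder G w o i₁ i₂ - 1)) := by linear_combination hf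
  constructor
  · intro h2
    rw [h2, sub_self, mul_zero] at h1
    have := T_cancel _ _ (neg_eq_zero.1 h1.symm)
    exact sub_eq_zero.1 this
  · intro h2
    rw [h2, sub_self, mul_zero, neg_zero] at h1
    exact sub_eq_zero.1 (T_cancel _ _ h1)

end Pool.Agent.Helper43_HT
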