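import Pool.Agent.Helper43_HT.Defect

set_option autoImplicit false

/-! The condition `NoTriple` holds for diagrams in the sphere. -/

namespace Pool.Agent.Helper43_HT

open Finset
open Pool.Agent.H891R2.HO
open Pool.Agent.H891R2.MT.T2 (card_quot_congr card_add_same card_add_ne)

variable {k : ℕ}

theorem defect_const (G : Shadow k) (hG : G.Checkerboard) (hK : G.IsKnot) (hS : Spherical G)
    (χ : Fin k × Fin 4 → Bool) (h1 : ∀ c, χ (G.arc c) = !(χ c))
    (h2 : ∀ i j, χ (i, j + 1) = !(χ (i, j))) (A : Finset (Fin k)) :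
    defect G (fun i => χ (i, 0)) A = G.loops (fun i => χ (i, 0)) := by
  set β : Fin k → Bool := fun i => χ (i, 0) with hβ
  have hr := regions_eq G χ h1 h2
  have hr' : regions G = k + 2 := hS
  rw [hr'] at hr
  change k + 2 = G.loops β + G.loops (fun i => !(χ (i, 0))) at hr
  have e0 : flip β ∅ = β := by
    funext i; unfold flip; simp
  have e1 : flip β univ = fun i => !(χ (i, 0)) := by
    funext i; unfold flip; simp [hβ]
  have c0 : cc G β ∅ = G.loops β := by
    unfold cc
    rw [loops_eq]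
    congr 2
    funext c c'
    apply propext
    unfold crel lrel
    simp
  have c1 : cc G β univ = 1 := by
    unfold Shadow.IsKnot at hK
    unfold cc
    have hw : ∀ c c' : Fin k × Fin 4, (c' = G.arc c ∨ c' = (c.1, c.2 + 2)) →
        Quot.mk (crel G β univ) c = Quot.mk (crel G β univ) c' := by
      rintro c c' (h | h)
      · exact Quot.sound (Or.inl h)
      · exact Quot.sound (Or.inr (Or.inr ⟨mem_univ _, h⟩))
    have hle : Nat.card (Quot (crel G β univ)) ≤
        Nat.card (Quot (fun c c' : Fin k × Fin 4 => c' = G.arc c ∨ c' = (c.1, c.2 + 2))) :=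
      Nat.card_le_card_of_surjective (Quot.lift (fun x => Quot.mk (crel G β univ) x) hw)
        (by rintro ⟨x⟩; exact ⟨Quot.mk _ x, rfl⟩)
    have hpos : 0 < Nat.card (Quot (fun c c' : Fin k × Fin 4 => c' = G.arc c ∨ c' = (c.1, c.2 + 2))) := by
      rw [hK]; exact one_pos
    obtain ⟨q⟩ := (Nat.card_pos_iff.mp hpos).1
    obtain ⟨c, _⟩ := Quot.exists_rep q
    have : Nonempty (Quot (crel G β univ)) := ⟨Quot.mk _ c⟩
    have hpos' : 0 < Nat.card (Quot (crel G β univ)) := Nat.card_pos
    rw [hK] at hle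
    omega
  have d0 : defect G β ∅ = G.loops β := by
    unfold defect
    rw [c0, e0, card_empty]
    push_cast
    ring
  have d1 : defect G β univ = G.loops β := by
    unfold defect
    rw [c1, e1, card_univ, Fintype.card_fin]
    push_cast
    omega
  have u1 := defect_union G β hG ∅ A
  have u2 := defect_union G β hG A univ
  rw [empty_union] at u1
  have e2 : A ∪ univ = univ := by simp
  rw [e2, d1] at u2
  rw [d0] at u1
  exact le_antisymm u2 u1

/-- a finset for every state -/
theorem flip_surj (β S : Fin k → Bool) : flip β (univ.filter (fun i => S i ≠ β i)) = S := by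
  funext i
  unfold flip
  by_cases h : S i = β i
  · simp [h]
  · simp only [mem_filter, mem_univ, true_and, ne_eq]
    rw [if_pos h]
    cases hs : S i <;> cases hb : β i <;> simp_all

theorem st_update_one (i₁ i₂ : Fin k) (hi : i₁ ≠ i₂) (t : Other i₁ i₂ → Bool) (x y z : Bool) :
    Function.update (st i₁ i₂ t x y) i₁ z = st i₁ i₂ t z y := by
  funext i
  by_cases h1 : i = i₁
  · subst h1
    rw [Function.update_self, st_one _ _ hi]
  · rw [Function.update_of_ne h1]
    by_cases h2 : i = i₂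
    · subst h2; rw [st_two, st_two]
    · rw [st_other i₁ i₂ t x y ⟨i, h1, h2⟩, st_other i₁ i₂ t z y ⟨i, h1, h2⟩]

theorem st_update_two (i₁ i₂ : Fin k) (hi : i₁ ≠ i₂) (t : Other i₁ i₂ → Bool) (x y z : Bool) :
    Function.update (st i₁ i₂ t x y) i₂ z = st i₁ i₂ t x z := by
  funext i
  by_cases h2 : i = i₂
  · subst h2
    rw [Function.update_self, st_two]
  · rw [Function.update_of_ne h2]
    by_cases h1 : i = i₁
    · subst h1; rw [st_one _ _ hi, st_one _ _ hi]
    · rw [st_other i₁ i₂ t x y ⟨i, h1, h2⟩, st_other i₁ i₂ t x z ⟨i, h1, h2⟩]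

theorem noTriple (G : Shadow k) (hG : G.Checkerboard) (hK : G.IsKnot) (hS : Spherical G)
    (i₁ i₂ : Fin k) (hi : i₁ ≠ i₂) (ha : G.arc (i₁, 1) = (i₂, 3)) : NoTriple G i₁ i₂ := by
  rintro t ⟨q1, q2, q3⟩
  have ht := ext_coe i₁ i₂ t
  -- the labels
  obtain ⟨lT, lA, lB, hc, hL⟩ := labels_cases G hG i₁ i₂ hi ha (ext i₁ i₂ t)
  rw [ht] at hL
  have r1 : lT = 2 := (hL (false, 3) (true, 1)).1 q1
  have r2 : 0 = lB := (hL (false, 2) (true, 0)).1 q2
  have r3 : lA = 1 := (hL (true, 2) (false, 0)).1 q3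
  subst r1 r2 r3
  have g : ∀ x y, G.loops (st i₁ i₂ t x y) =
      Nat.card (Quot (addl (Opened G i₁ i₂ t) (cor i₁ i₂) (lst x y))) := by
    intro x y
    have := loops_addl G i₁ i₂ hi (ext i₁ i₂ t) x y
    rw [ht] at this
    exact this
  have v1 := card_addl (cor i₁ i₂) (lst true true) _ _ hL
  have v2 := card_addl (cor i₁ i₂) (lst true false) _ _ hL
  have v3 := card_addl (cor i₁ i₂) (lst false true) _ _ hL
  have v4 := card_addl (cor i₁ i₂) (lst false false) _ _ hL
  rw [← g] at v1 v2 v3 v4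
  have t1 : total (lab 2 1 0) (lst true true) = 2 := by decide
  have t2 : total (lab 2 1 0) (lst true false) = 3 := by decide
  have t3 : total (lab 2 1 0) (lst false true) = 3 := by decide
  have t4 : total (lab 2 1 0) (lst false false) = 2 := by decide
  rw [t1] at v1
  rw [t2] at v2
  rw [t3] at v3
  rw [t4] at v4
  obtain ⟨χ, h1, h2⟩ := hG
  have hG : G.Checkerboard := ⟨χ, h1, h2⟩
  set β : Fin k → Bool := fun i => χ (i, 0) with hβ
  have hd : ∀ B, defect G β B = G.loops β := defect_const G hG hK hS χ h1 h2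
  have hβ2 : β i₂ = !(β i₁) := by
    have c1 := chi_even χ h2 i₁
    have c2 := chi_even χ h2 i₂
    have c3 : χ (i₂, 3) = !(χ (i₁, 1)) := by rw [← ha, h1]
    rw [c1.1, c2.2.2, Bool.not_not] at c3
    show χ (i₂, 0) = !(χ (i₁, 0))
    rw [← c3, Bool.not_not]
  set S := st i₁ i₂ t (β i₁) (β i₂) with hSd
  set A : Finset (Fin k) := univ.filter (fun i => S i ≠ β i) with hA
  have fA : flip β A = S := flip_surj β S
  have n1 : i₁ ∉ A := by
    rw [hA, mem_filter, hSd, st_one i₁ i₂ hi]
    simp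
  have n2 : i₂ ∉ A := by
    rw [hA, mem_filter, hSd, st_two]
    simp
  have f1 : flip β (insert i₁ A) = st i₁ i₂ t (!(β i₁)) (β i₂) := by
    rw [flip_insert β A i₁ n1, fA, hSd, st_update_one i₁ i₂ hi]
  have f2 : flip β (insert i₂ A) = st i₁ i₂ t (β i₁) (!(β i₂)) := by
    rw [flip_insert β A i₂ n2, fA, hSd, st_update_two i₁ i₂ hi]
  have n3 : i₂ ∉ insert i₁ A := by
    rw [mem_insert]
    rintro (h | h)
    · exact hi h.symm
    · exact n2 h
  have f3 : flip β (insert i₂ (insert i₁ A)) = st i₁ i₂ t (!(β i₁)) (!(β i₂)) := by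
    rw [flip_insert β (insert i₁ A) i₂ n3, f1, st_update_two i₁ i₂ hi]
  have D0 := hd A
  have D1 := hd (insert i₁ A)
  have D2 := hd (insert i₂ A)
  have D3 := hd (insert i₂ (insert i₁ A))
  unfold defect at D0 D1 D2 D3
  rw [fA] at D0
  rw [f1, card_insert_of_notMem n1] at D1
  rw [f2, card_insert_of_notMem n2] at D2
  rw [f3, card_insert_of_notMem n3, card_insert_of_notMem n1] at D3
  have key : (G.loops S = G.loops (st i₁ i₂ t (!(β i₁)) (!(β i₂)))) ∧
      G.loops (st i₁ i₂ t (!(β i₁)) (β i₂)) = G.loops S + 1 ∧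
      G.loops (st i₁ i₂ t (β i₁) (!(β i₂))) = G.loops S + 1 := by
    rw [hSd, hβ2]
    cases β i₁
    · simp only [Bool.not_false, Bool.not_true]
      omega
    · simp only [Bool.not_false, Bool.not_true]
      omega
  obtain ⟨k1, k2, k3⟩ := key
  push_cast at D0 D1 D2 D3
  rw [← k1] at D3
  rw [k2] at D1
  rw [k3] at D2
  push_cast at D1 D2
  have m1 : Quot.mk (crel G β A) (i₂, (0 : Fin 4)) = Quot.mk (crel G β A) (i₂, 2) := by
    by_contra h
    have := cc_ne G β A i₂ h
    omega
  have m2 : Quot.mk (crel G β (insert i₁ A)) (i₂, (0 : Fin 4)) =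
      Quot.mk (crel G β (insert i₁ A)) (i₂, 2) := by
    have hw : ∀ x y, crel G β A x y →
        Quot.mk (crel G β (insert i₁ A)) x = Quot.mk (crel G β (insert i₁ A)) y := by
      rintro x y (h | h | ⟨h, h'⟩)
      · exact Quot.sound (Or.inl h)
      · exact Quot.sound (Or.inr (Or.inl h))
      · exact Quot.sound (Or.inr (Or.inr ⟨mem_insert_of_mem h, h'⟩))
    exact congrArg (Quot.lift (fun x => Quot.mk (crel G β (insert i₁ A)) x) hw) m1
  have m3 := cc_same G β (insert i₁ A) i₂ m2
  omega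

end Pool.Agent.Helper43_HT
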